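import Mathlib
import Pool.Agent.X289.IsoQ

/-!
# The Ramanujan conjecture for `GL(2)`: a small place at which few of many representations are not tempered

Let `π_1, ..., π_m` be unitary cuspidal automorphic representations of `GL_2` over a number field `K`. Kim and Shahidi
proved that the places at which one of them is not tempered have upper density at most `1/35`; so for a fixed family
there are infinitely many places at which at most `m/35` of the `π_i` are not tempered. We find such a place below an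
explicit bound, uniformly in the representations:

1. if `K = ℚ` and all the `A⁴ π_i = Sym⁴ π_i ⊗ ω_i⁻²` are cuspidal, then there is a prime `p ≤ A C^{1+ε}` at which
   fewer than `m / 35` of the `π_i` are not tempered;
2. if `K` is any number field and no `π_i` is dihedral, then there is a place `v` with `N v ≤ A C^{1+ε}` at which
   fewer than `m / 10` of the `π_i` are not tempered.

Here `A` depends only on `K`, `m` and `ε`, and `C` is the product of the analytic conductors of the `L`-functions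
`L(s, P_i × P_i~)`, where `P_i = 1 ⊞ 3 Ad π_i ⊞ 5 A⁴ π_i` and `P_i = 1 ⊞ 3 Ad π_i`, respectively, up to the norms of
finitely many local factors removed at the finite set `S` of bad places. There are no conditions on the
ramification. For `m ≤ 35` (`m ≤ 10`) all the `π_i` are tempered at the place. (The result
`SimultaneouslyTempered` of this problem has `m ≤ 25` and `m ≤ 9`, and it says nothing for larger `m`.)

In addition the traces of the `k`-th powers of all the Satake parameters satisfy `∑_i |tr P_{i,v}^k|² < 35 m`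
(`10 m`) for some `k ≥ 1` with `(N v)^k` below the same bound. This is a bound for the mean of a polynomial of
degree eight in the normalised Hecke eigenvalues.

The method is the uniform version of Landau's theorem in `Pool.Agent.TH949.UL`, applied to the product over `i` of
`L(s, P_i × P_i~) / ζ_K(s)^e`, `e = 35` (`e = 10`) being the order of the pole of `L(s, P_i × P_i~)`. If
`π_{i,v}` is not tempered, then the trace of the `k`-th power of the parameters of `P_{i,v}` is a real number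
`≥ 1 + 3 · 3 + 5 · 5 = 35` (`≥ 1 + 3 · 3 = 10`). The coefficients of the logarithm of the product are
`∑_i (|tr|² - e) / k`. If they were all nonnegative up to a power of the conductor, then this would contradict the
functional equation. The point is that for the isobaric sums the dimension agrees with the order `e` of the pole.

Notes on the data. `S` is a finite set of places; it has to contain the places at which some `π_i` is not a twist of
an unramified representation. For `v ∉ S` let `α_{i,v,j}` be the Satake parameters of `π_{i,v}` (of its unramified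
unitary twist). At `v ∈ S` let the `β_{i,v,j}` be the reciprocal roots of `L(s, P_v × P_v~) / ζ_v(s)^e`, `P = P_i`,
filled up with zeros. The set `T_i` consists of pairs `(v, j)`, `v ∈ S`, with `|β_{i,v,j}| = 1` such that
`∑_j β_{i,v,j}^k`, `(v, j) ∉ T_i`, is nonnegative for all `k ≥ 1`. Such a set exists: if `π_{i,v}` is square integrable
or a unitary principal series, then after removing all the roots of absolute value `1` only positive powers of
`(N v)^{-1}` remain; otherwise `π_{i,v}` is a twist of an unramified representation which is not tempered, and nothing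
has to be removed.

The structures `CuspidalQ` and `CuspidalK` list what is used of the representations. All of it is known: they are
unitary; the bound of Jacquet and Shalika for `Ad π` and `A⁴ π`; the analytic properties of the product `L`-functions

* `L(s, P × P~) = ζ(s) L(s, Ad)^6 L(s, A⁴)^10 L(s, Ad × A⁴)^30 L(s, Ad × Ad)^9 L(s, A⁴ × A⁴)^25` over `ℚ`, with a pole
  of order `1 + 9 + 25 = 35` at `s = 1` (Gelbart, Jacquet; Kim; Jacquet, Piatetski-Shapiro, Shalika; Shahidi);
* `L(s, P × P~) / ζ_K(s)^10 = L(s, Ad π)^15 L(s, A⁴ π)^9` over `K`, which is entire (Gelbart, Jacquet; Kim, Shahidi).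
-/

set_option autoImplicit false

namespace Pool.Agent.Results.MP_8410ab_nt.FewNontempered

open NumberField IsDedekindDomain

/-- the finite places of `K` outside `S` -/
abbrev Places {K : Type} [Field K] [NumberField K] (S : Finset (HeightOneSpectrum (𝓞 K))) :=
  {v : HeightOneSpectrum (𝓞 K) // v ∉ S}

/-- the norm of a finite place -/
noncomputable def Nm {K : Type} [Field K] [NumberField K] (v : HeightOneSpectrum (𝓞 K)) : ℕ :=
  Ideal.absNorm v.asIdeal

/-- the primes outside `S` -/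
abbrev Unram (S : Finset Nat.Primes) := {p : Nat.Primes // p ∉ S}

/-- the parameters of a unitary representation -/
def Unitary (a : Fin 2 → ℂ) : Prop :=
  (∀ i, a i ≠ 0) ∧ ∃ τ : Equiv.Perm (Fin 2), ∀ i, a (τ i) = ((starRingEnd ℂ) (a i))⁻¹

/-- the parameters `a` belong to a tempered representation -/
def Tempered (a : Fin 2 → ℂ) : Prop := ∀ i, ‖a i‖ = 1

/-- the Satake parameters of the adjoint lift `Ad π` to `GL_3` of a representation `π` of `GL_2` -/
noncomputable def lift3 (a : Fin 2 → ℂ) : Fin 3 → ℂ := ![a 0 / a 1, 1, a 1 / a 0]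

/-- the Satake parameters of the lift `A⁴ π = Sym⁴ π ⊗ ω^{-2}` to `GL_5` of a representation `π` of `GL_2` with the
central character `ω` -/
noncomputable def lift5 (a : Fin 2 → ℂ) : Fin 5 → ℂ :=
  ![(a 0 / a 1) ^ 2, a 0 / a 1, 1, a 1 / a 0, (a 1 / a 0) ^ 2]

/-- the sum of the `k`-th powers of the parameters of `1 ⊞ 3 Ad π` -/
noncomputable def tr10 (a : Fin 2 → ℂ) (k : ℕ) : ℂ := 1 + 3 * ∑ i, lift3 a i ^ k

/-- the sum of the `k`-th powers of the parameters of `1 ⊞ 3 Ad π ⊞ 5 A⁴ π` -/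
noncomputable def tr35 (a : Fin 2 → ℂ) (k : ℕ) : ℂ := 1 + 3 * ∑ i, lift3 a i ^ k + 5 * ∑ i, lift5 a i ^ k

/-- `∑_{v ∉ S} ∑_{k ≥ 1} (|tr P_v^k|² - 10) / k · (N v)^{-ks}`, the logarithm of
`∏_{v ∉ S} L(s, P_v × P_v~) ζ_v(s)^{-10}`, `P = 1 ⊞ 3 Ad π` -/
noncomputable def logK {K : Type} [Field K] [NumberField K] {S : Finset (HeightOneSpectrum (𝓞 K))}
    (α : Places S → Fin 2 → ℂ) (s : ℂ) : ℂ :=
  ∑' x : Places S × ℕ, (((‖tr10 (α x.1) (x.2 + 1)‖ ^ 2 - 10) / ((x.2 : ℝ) + 1) : ℝ) : ℂ) *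
    (((Nm x.1.1 : ℕ) : ℂ) ^ (-s)) ^ (x.2 + 1)

/-- `∑_{p ∉ S} ∑_{k ≥ 1} (|tr P_p^k|² - 35) / k · p^{-ks}`, the logarithm of
`∏_{p ∉ S} L(s, P_p × P_p~) ζ_p(s)^{-35}`, `P = 1 ⊞ 3 Ad π ⊞ 5 A⁴ π` -/
noncomputable def logQ {S : Finset Nat.Primes} (α : Unram S → Fin 2 → ℂ) (s : ℂ) : ℂ :=
  ∑' x : Unram S × ℕ, (((‖tr35 (α x.1) (x.2 + 1)‖ ^ 2 - 35) / ((x.2 : ℝ) + 1) : ℝ) : ℂ) *
    (((x.1.1 : ℕ) : ℂ) ^ (-s)) ^ (x.2 + 1)

/-- What is used of a unitary cuspidal automorphic representation `π` of `GL_2` over `K` which is not dihedral, with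
`P = 1 ⊞ 3 Ad π`: `α` are the Satake parameters outside `S`, `β` the reciprocal roots of
`L(s, P_v × P_v~) / ζ_v(s)^10` at `v ∈ S`, `T` the factors to be removed, `κ` the parameters of the Gamma factors
and `Q²` the conductor of `L(s, Ad π)^15 L(s, A⁴ π)^9`. -/
structure CuspidalK {K : Type} [Field K] [NumberField K] {S : Finset (HeightOneSpectrum (𝓞 K))}
    (α : Places S → Fin 2 → ℂ) (β : HeightOneSpectrum (𝓞 K) → Fin 90 → ℂ)
    (T : Finset (HeightOneSpectrum (𝓞 K) × Fin 90))
    (κ : Fin (90 * Module.finrank ℚ K) → ℂ) (Q : ℝ) : Prop where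
  /-- the unramified components are unitary -/
  unitary : ∀ v, Unitary (α v)
  /-- the bound of Jacquet and Shalika for `Ad π` -/
  bound : ∀ v i, ‖lift3 (α v) i‖ < (Nm v.1 : ℝ) ^ (1 / 2 : ℝ)
  /-- the same at the places of `S` -/
  ramified : ∀ v ∈ S, ∀ i, ‖β v i‖ < (Nm v : ℝ)
  /-- the removed factors -/
  removed : ∀ x ∈ T, x.1 ∈ S ∧ ‖β x.1 x.2‖ = 1
  /-- the logarithms of the other factors at `S` have nonnegative coefficients -/
  nonneg : ∀ v ∈ S, ∀ k : ℕ, ∃ c : ℝ, 0 ≤ c ∧
    ∑ i, Set.indicator {i | (v, i) ∉ T} (fun i => β v i ^ (k + 1)) i = (c : ℂ)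
  /-- the conductor -/
  one_le : 1 ≤ Q
  /-- the components at infinity are unitary -/
  conj : Multiset.map (fun j => (starRingEnd ℂ) (κ j)) Finset.univ.val = Multiset.map κ Finset.univ.val
  /-- the bound of Jacquet and Shalika at infinity -/
  re : ∀ j, -1 < (κ j).re
  /-- a factor `Γ_ℝ(s)`; it occurs for every `π` -/
  zero : ∃ j, κ j = 0
  /-- `F(s) = L(s, Ad π)^15 L(s, A⁴ π)^9` is the finite part, `Ξ` the completed function -/
  continuation : ∃ (F Ξ : ℂ → ℂ) (ω : ℂ), Differentiable ℂ F ∧ Differentiable ℂ Ξ ∧ ‖ω‖ = 1 ∧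
    (∀ a b : ℝ, ∃ (C : ℝ) (A : ℕ), ∀ s : ℂ, a ≤ s.re → s.re ≤ b → ‖F s‖ ≤ C * (1 + |s.im|) ^ A) ∧
    (∀ s : ℂ, 1 < s.re → F s * ∏ v ∈ S, ∏ i, (1 - β v i * ((Nm v : ℕ) : ℂ) ^ (-s)) =
      Complex.exp (logK α s)) ∧
    (∀ s : ℂ, 1 < s.re → Ξ s = F s * ((Q : ℂ) ^ s * ∏ j, Complex.Gammaℝ (s + κ j))) ∧
    ∀ s : ℂ, Ξ (1 - s) = ω * Ξ s

/-- What is used of a unitary cuspidal automorphic representation `π` of `GL_2` over `ℚ` such that `A⁴ π` is cuspidal,
with `P = 1 ⊞ 3 Ad π ⊞ 5 A⁴ π`: `α` are the Satake parameters outside `S`, `β` the reciprocal roots of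
`L(s, P_p × P_p~) / ζ_p(s)^35` at `p ∈ S`, `T` the factors to be removed, `0` (35 times) and `κ` the parameters of the
Gamma factors and `Q²` the conductor of `L(s, P × P~)`. -/
structure CuspidalQ {S : Finset Nat.Primes} (α : Unram S → Fin 2 → ℂ)
    (β : Nat.Primes → Fin 1190 → ℂ) (T : Finset (Nat.Primes × Fin 1190))
    (κ : Fin 1190 → ℂ) (Q : ℝ) : Prop where
  /-- the unramified components are unitary -/
  unitary : ∀ p, Unitary (α p)
  /-- the bound of Jacquet and Shalika for `A⁴ π` -/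
  bound : ∀ p i, ‖lift5 (α p) i‖ < ((p.1 : ℕ) : ℝ) ^ (1 / 2 : ℝ)
  /-- the same at the primes of `S` -/
  ramified : ∀ p ∈ S, ∀ i, ‖β p i‖ < ((p : ℕ) : ℝ)
  /-- the removed factors -/
  removed : ∀ x ∈ T, x.1 ∈ S ∧ ‖β x.1 x.2‖ = 1
  /-- the logarithms of the other factors at `S` have nonnegative coefficients -/
  nonneg : ∀ p ∈ S, ∀ k : ℕ, ∃ c : ℝ, 0 ≤ c ∧
    ∑ i, Set.indicator {i | (p, i) ∉ T} (fun i => β p i ^ (k + 1)) i = (c : ℂ)
  /-- the conductor -/
  one_le : 1 ≤ Q
  /-- the component at infinity is unitary -/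
  conj : Multiset.map (fun j => (starRingEnd ℂ) (κ j)) Finset.univ.val = Multiset.map κ Finset.univ.val
  /-- the bound of Jacquet and Shalika at infinity -/
  re : ∀ j, -1 < (κ j).re
  /-- another factor `Γ_ℝ(s)`; it occurs for every `π` -/
  zero : ∃ j, κ j = 0
  /-- `L(s, P × P~) = G(s) / (s - 1)^35`,
  `Ξ(s) = (s (s - 1))^35 Q^s Γ_ℝ(s)^35 ∏_j Γ_ℝ(s + κ_j) L(s, P × P~)` -/
  continuation : ∃ (G Ξ : ℂ → ℂ) (ω : ℂ), Differentiable ℂ G ∧ Differentiable ℂ Ξ ∧ ‖ω‖ = 1 ∧
    (∀ s : ℂ, 1 < s.re → G s * ∏ p ∈ S, ∏ i, (1 - β p i * ((p : ℕ) : ℂ) ^ (-s)) =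
      ((s - 1) * riemannZeta s) ^ 35 * Complex.exp (logQ α s)) ∧
    (∀ a b : ℝ, ∃ C A : ℝ, ∀ s : ℂ, a ≤ s.re → s.re ≤ b → ‖G s‖ ≤ C * (1 + |s.im|) ^ A) ∧
    (∀ s : ℂ, 1 < s.re →
      Ξ s = s ^ 35 * G s * ((Q : ℂ) ^ s * Complex.Gammaℝ s ^ 35 * ∏ j, Complex.Gammaℝ (s + κ j))) ∧
    ∀ s : ℂ, Ξ (1 - s) = ω * Ξ s

/-- **A small place at which few of the representations are not tempered.** -/
theorem result {ε : ℝ} (hε : 0 < ε) (m : ℕ) (hm : 0 < m) :
    (∃ A : ℝ, 0 < A ∧
      ∀ (S : Finset Nat.Primes) (α : Fin m → Unram S → Fin 2 → ℂ)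
      (β : Fin m → Nat.Primes → Fin 1190 → ℂ) (T : Fin m → Finset (Nat.Primes × Fin 1190))
      (κ : Fin m → Fin 1190 → ℂ) (Q : Fin m → ℝ),
      (∀ i, CuspidalQ (α i) (β i) (T i) (κ i) (Q i)) →
      ∃ (p : Unram S) (k : ℕ), 1 ≤ k ∧
        ((p.1 : ℕ) : ℝ) ^ k ≤
          A * (∏ i, (Q i ^ 2 * (∏ j, (1 + ‖κ i j‖)) * ∏ x ∈ T i, ((x.1 : ℕ) : ℝ))) ^ (1 + ε) ∧
        ∑ i, ‖tr35 (α i p) k‖ ^ 2 < 35 * (m : ℝ) ∧
        35 * Nat.card {i // ¬ Tempered (α i p)} < m) ∧
    (∀ (K : Type) [Field K] [NumberField K], ∃ A : ℝ, 0 < A ∧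
      ∀ (S : Finset (HeightOneSpectrum (𝓞 K))) (α : Fin m → Places S → Fin 2 → ℂ)
      (β : Fin m → HeightOneSpectrum (𝓞 K) → Fin 90 → ℂ)
      (T : Fin m → Finset (HeightOneSpectrum (𝓞 K) × Fin 90))
      (κ : Fin m → Fin (90 * Module.finrank ℚ K) → ℂ) (Q : Fin m → ℝ),
      (∀ i, CuspidalK (α i) (β i) (T i) (κ i) (Q i)) →
      ∃ (v : Places S) (k : ℕ), 1 ≤ k ∧
        (Nm v.1 : ℝ) ^ k ≤
          A * (∏ i, (Q i ^ 2 * (∏ j, (1 + ‖κ i j‖)) * ∏ x ∈ T i, (Nm x.1 : ℝ))) ^ (1 + ε) ∧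
        ∑ i, ‖tr10 (α i v) k‖ ^ 2 < 10 * (m : ℝ) ∧
        10 * Nat.card {i // ¬ Tempered (α i v)} < m) := by
  classical
  refine ⟨?_, fun K _ _ => ?_⟩
  · obtain ⟨A, hA0, hA⟩ := Pool.Agent.X289.Iso.rat_iso
      (Fintype.card (Unit ⊕ (Fin 3 × Fin 3) ⊕ (Fin 5 × Fin 5))) m 1190 1190 34 hε
    refine ⟨A, hA0, fun S α β T κ Q h => ?_⟩
    have htr : ∀ i p k, ∑ j, Pool.Agent.X289.Iso.vec (Pool.Agent.X289.Iso.b35 (α i p)) j ^ k =
        tr35 (α i p) k := fun i p k => by
      rw [Pool.Agent.X289.Iso.sum_vec, Pool.Agent.X289.Iso.sum_b35]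
      rfl
    obtain ⟨p, k, hk, hle, hlt⟩ := hA S
      (fun i p => Pool.Agent.X289.Iso.vec (Pool.Agent.X289.Iso.b35 (α i p))) β T κ Q hm (fun i => by
      have hb0 := fun p => (h i).bound p 2
      have hq1 : ∀ p : Unram S, (1 : ℝ) < ((p.1 : ℕ) : ℝ) ^ (1 / 2 : ℝ) := fun p => by
        refine Real.one_lt_rpow ?_ (by norm_num)
        exact_mod_cast p.1.2.one_lt
      refine ⟨fun p j => ?_, (h i).ramified, (h i).removed, (h i).nonneg, (h i).one_le, (h i).conj,
        (h i).re, (h i).zero, ?_⟩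
      · unfold Pool.Agent.X289.Iso.vec
        generalize (Fintype.equivFin (Unit ⊕ (Fin 3 × Fin 3) ⊕ (Fin 5 × Fin 5))).symm j = x
        rcases x with x | x | x
        · simpa [Pool.Agent.X289.Iso.b35] using hq1 p
        · obtain ⟨x1, x2⟩ := x
          simp only [Pool.Agent.X289.Iso.b35, Sum.elim_inr, Sum.elim_inl]
          fin_cases x2
          · exact (h i).bound p 1
          · simpa [Pool.Agent.Y725.UG.adj] using hq1 p
          · exact (h i).bound p 3
        · exact (h i).bound p x.2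
      · obtain ⟨G, Ξ, ω, hG, hΞ, hω, hE, hgr, hΞe, hfe⟩ := (h i).continuation
        refine ⟨G, Ξ, ω, hG, hΞ, hω, fun s hs => ?_, hgr, hΞe, hfe⟩
        rw [hE s hs]
        congr 2
        unfold logQ Pool.Agent.X289.Iso.logEQ
        refine tsum_congr fun x => ?_
        rw [htr]
        norm_num)
    have hlt' : ∑ i, ‖tr35 (α i p) k‖ ^ 2 < 35 * (m : ℝ) := by
      have h1 : ∑ i, ‖tr35 (α i p) k‖ ^ 2 < (m : ℝ) * ((34 + 1 : ℕ) : ℝ) := by
        simpa only [htr] using hlt
      calc _ < _ := h1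
        _ = _ := by norm_num; ring
    refine ⟨p, k, hk, hle, hlt', ?_⟩
    have h2 := Pool.Agent.X289.Iso.few (P := fun i => ¬ Tempered (α i p)) (f := fun i => tr35 (α i p) k) (e := 35)
      (by norm_num) (fun i hi => by
        unfold Tempered at hi
        push Not at hi
        obtain ⟨j, hj⟩ := hi
        obtain ⟨x, y, hx, hy, hxe, hye⟩ :=
          Pool.Agent.X289.Iso.nontemp ((h i).unitary p).1 ((h i).unitary p).2 hj k
        have h3 : tr35 (α i p) k = ((1 + 3 * x + 5 * y : ℝ) : ℂ) := by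
          have h4 : tr35 (α i p) k = 1 + 3 * ∑ j, Pool.Agent.Y725.UG.adj (α i p) j ^ k +
            5 * ∑ j, Pool.Agent.Y725.UG.four (α i p) j ^ k := rfl
          rw [h4, hxe, hye]
          push_cast
          ring
        rw [h3, Complex.norm_real, Real.norm_of_nonneg (by linarith)]
        linarith) (by linarith)
    have h5 : ((35 * Nat.card {i // ¬ Tempered (α i p)} : ℕ) : ℝ) < (m : ℝ) := by
      push_cast
      linarith
    exact_mod_cast h5
  · obtain ⟨A, hA0, hA⟩ := Pool.Agent.X289.Iso.gln_iso K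
      (Fintype.card (Unit ⊕ (Fin 3 × Fin 3))) m 90 (90 * Module.finrank ℚ K) 9
      (Pool.Agent.Y725.UG.den_one_pow m) hε
    refine ⟨A, hA0, fun S α β T κ Q h => ?_⟩
    have htr : ∀ i p k, ∑ j, Pool.Agent.X289.Iso.vec (Pool.Agent.X289.Iso.b10 (α i p)) j ^ k =
        tr10 (α i p) k := fun i p k => by
      rw [Pool.Agent.X289.Iso.sum_vec, Pool.Agent.X289.Iso.sum_b10]
      rfl
    choose F Ξ ω hF hΞ hω hgr hE hΞF hfe using fun i => (h i).continuation
    obtain ⟨v, k, hk, hle, hlt⟩ := hA S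
      (fun i p => Pool.Agent.X289.Iso.vec (Pool.Agent.X289.Iso.b10 (α i p))) β T κ Q F (fun i => by
        have hq1 : ∀ v : Places S, (1 : ℝ) < (Nm v.1 : ℝ) ^ (1 / 2 : ℝ) := fun v => by
          refine Real.one_lt_rpow ?_ (by norm_num)
          exact Pool.Agent.TH861.GL3.one_lt_qq v.1
        refine ⟨fun v j => ?_, (h i).ramified, (h i).removed, fun v hv k => ?_⟩
        · unfold Pool.Agent.X289.Iso.vec
          generalize (Fintype.equivFin (Unit ⊕ (Fin 3 × Fin 3))).symm j = x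
          rcases x with x | x
          · have h3 : ‖(1 : ℂ)‖ < (Nm v.1 : ℝ) ^ (1 / 2 : ℝ) := by
              rw [norm_one]
              exact hq1 v
            exact h3
          · exact (h i).bound v x.2
        · obtain ⟨c, hc, hc2⟩ := (h i).nonneg v hv k
          refine ⟨c, hc, ?_⟩
          rw [← hc2]
          refine Finset.sum_congr rfl fun j _ => ?_
          by_cases hj : (v, j) ∈ T i
          · rw [if_pos hj, Set.indicator_of_notMem (by simpa using hj)]
          · rw [if_neg hj, Set.indicator_of_mem (by simpa using hj)])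
      (fun i => ⟨(h i).one_le, (h i).conj, (h i).re, hF i, hgr i, Ξ i, ω i, hω i, hΞ i,
        fun s hs => hΞF i s (by linarith), hfe i⟩) ⟨⟨0, hm⟩, (h ⟨0, hm⟩).zero⟩
      (fun i s hs => by
        rw [one_mul]
        have h1 := hE i s (by linarith)
        refine h1.trans ?_
        congr 1
        unfold logK Pool.Agent.X289.Iso.logE
        refine tsum_congr fun x => ?_
        have h2 : ((9 + 1 : ℕ) : ℝ) = 10 := by norm_num
        rw [htr, h2]
        rfl)
    have hlt' : ∑ i, ‖tr10 (α i v) k‖ ^ 2 < 10 * (m : ℝ) := by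
      have h1 : ∑ i, ‖tr10 (α i v) k‖ ^ 2 < (m : ℝ) * ((9 + 1 : ℕ) : ℝ) := by
        simpa only [htr] using hlt
      calc _ < _ := h1
        _ = _ := by norm_num; ring
    refine ⟨v, k, hk, hle, hlt', ?_⟩
    have h2 := Pool.Agent.X289.Iso.few (P := fun i => ¬ Tempered (α i v)) (f := fun i => tr10 (α i v) k) (e := 10)
      (by norm_num) (fun i hi => by
        unfold Tempered at hi
        push Not at hi
        obtain ⟨j, hj⟩ := hi
        obtain ⟨x, y, hx, hy, hxe, hye⟩ :=
          Pool.Agent.X289.Iso.nontemp ((h i).unitary v).1 ((h i).unitary v).2 hj k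
        have h3 : tr10 (α i v) k = ((1 + 3 * x : ℝ) : ℂ) := by
          have h4 : tr10 (α i v) k = 1 + 3 * ∑ j, Pool.Agent.Y725.UG.adj (α i v) j ^ k := rfl
          rw [h4, hxe]
          push_cast
          ring
        rw [h3, Complex.norm_real, Real.norm_of_nonneg (by linarith)]
        linarith) (by linarith)
    have h5 : ((10 * Nat.card {i // ¬ Tempered (α i v)} : ℕ) : ℝ) < (m : ℝ) := by
      push_cast
      linarith
    exact_mod_cast h5

end Pool.Agent.Results.MP_8410ab_nt.FewNontempered
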