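import Pool.Agent.X289.LinC
import Pool.Agent.X289.Sat

/-!
# The Ramanujan conjecture for `GL(2)` at the primes of an arithmetic progression

Let `L/K` be a finite abelian extension of number fields with the Galois group `G`, `S` a finite set of places of `K`
which contains the ramified ones, and `F(v) ∈ G` the Frobenius of a place `v` outside `S`. For `K = ℚ` and a cyclotomic
field `L` the classes `F(v) = g` are the primes in the arithmetic progressions modulo `N`.

Let `π` be a unitary cuspidal automorphic representation of `GL_2` over `K`, unramified outside `S`, such that `Ad π`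
and `A⁴ π = Sym⁴ π ⊗ ω⁻²` are cuspidal and not isomorphic to their twists by nontrivial characters of `G`.

1. For every `g ∈ G` the places `v` with `F(v) = g` at which `π` is not tempered have upper density at most
   `1 / (35 |G|)`, that is, relative upper density at most `1/35` in the class. So `π` is tempered at no less than `34/35` of the
   primes of every arithmetic progression.
2. For `T ≥ 1` with `T⁴ - 3 T² + 1 ≥ 0` the places with `F(v) = g` and `|λ(v)| ≥ T`, `λ(v)` the trace of the Satake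
   parameters, have upper density at most `1 / (|G| (1 + (T² - 1)² + (T⁴ - 3 T² + 1)²))`.
3. If the central character is trivial and the `Sym^j π`, `j ≤ 4`, are cuspidal and not isomorphic to their twists by
   nontrivial characters of `G`, then the places with `F(v) = g` and `± λ(v) > 2`, with a prescribed sign, have
   upper density at most `1 / (55 |G|)`.
4. In general, for polynomials `P_g = ∑_i c_i(g) T_i` depending on the class, the places with
   `|P_{F(v)}(v)| ≥ X` have upper density at most `|G|⁻¹ ∑_g ∑_i c_i(g)² / X²`; here the `T_i` are the traces of `1`,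
   `Ad π`, `A⁴ π` (in 3. of the `Sym^j π`). This is what would follow if the Frobenius and the Satake parameter were
   independent and the latter had the law of Sato and Tate.

Kim and Shahidi proved the bound `1/35` for the set of all places. It gives nothing for the classes if `|G| ≥ 35`: all
the places which are not tempered could have the same Frobenius. For the class `g = 0` (the places which split
completely) one could use the base change to `L`.

The proof: for every `g` the function which is one at `(v, k)` if `k F(v) = g` and zero otherwise is a linear combination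
of the characters `ψ(F(v))^k` of `G`, with complex coefficients; so the Dirichlet series with the nonnegative
coefficients `|tr P_v^k|² / k`, `k F(v) = g`, is a linear combination of the logarithms of the `L`-functions of Rankin
and Selberg `L^S(s, A_i × A_j ⊗ ψ)`, `A_i ∈ {1, Ad π, A⁴ π}`, and only those with `i = j` and `ψ = 1` have a pole at
`s = 1`. The coefficients being complex, also the arguments of the `L`-functions at real points near `1` have to be
bounded; this is done by continuity.

The structures `Twists` and `TwistsTrivial` list what is used. All of it is known: the local components are unitary; the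
logarithms of the `L`-functions of Rankin and Selberg converge absolutely for real `s > 1`, and they have continuations
to a neighbourhood of `s = 1` with a simple pole if the two representations are dual to each other, and holomorphic and
not zero otherwise (Jacquet, Piatetski-Shapiro, Shalika, Shahidi). For `π` which is not dihedral, tetrahedral or
octahedral `Ad π` and `A⁴ π` are cuspidal (Gelbart, Jacquet, Kim, Shahidi) and `Ad π` is not isomorphic to a
nontrivial twist. If `|G|` is not divisible by `5`, then also `A⁴ π` is not isomorphic to a nontrivial twist, since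
both have the same central character.

The group `G` is written additively.
-/

set_option autoImplicit false

namespace Pool.Agent.Results.MP_8410ab_nt.FrobeniusClasses

open NumberField IsDedekindDomain Filter Topology
open scoped ComplexConjugate

/-- The norm of the place `v`. -/
noncomputable def q {K : Type} [Field K] [NumberField K] (v : HeightOneSpectrum (𝓞 K)) : ℕ :=
  Ideal.absNorm v.asIdeal

/-- The finite places outside `S`. -/
abbrev Places {K : Type} [Field K] [NumberField K] (S : Finset (HeightOneSpectrum (𝓞 K))) :=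
  {v : HeightOneSpectrum (𝓞 K) // v ∉ S}

/-- The Satake parameters of a unitary representation: a permutation of the parameters agrees with
`z ↦ 1 / conj z`. -/
def Unitary (a : Fin 2 → ℂ) : Prop :=
  (∀ i, a i ≠ 0) ∧ ∃ τ : Equiv.Perm (Fin 2), ∀ i, a (τ i) = (conj (a i))⁻¹

/-- The representation with the parameters `a` is tempered. -/
def Tempered (a : Fin 2 → ℂ) : Prop := ∀ i, ‖a i‖ = 1

/-- The traces of `1`, `Ad` and `A⁴` for parameters with the quotient `t`. -/
noncomputable def ad (t : ℂ) : Fin 3 → ℂ := ![1, t + 1 + t⁻¹, t ^ 2 + t + 1 + t⁻¹ + t⁻¹ ^ 2]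

/-- The traces of `Sym^j`, `j ≤ 4`, for the parameters `z` and `1 / z`. -/
noncomputable def sym (z : ℂ) : Fin 5 → ℂ :=
  ![1, z + z⁻¹, z ^ 2 + 1 + z⁻¹ ^ 2, z ^ 3 + z + z⁻¹ + z⁻¹ ^ 3, z ^ 4 + z ^ 2 + 1 + z⁻¹ ^ 2 + z⁻¹ ^ 4]

section

variable {K : Type} [Field K] [NumberField K] {S : Finset (HeightOneSpectrum (𝓞 K))}
  {G : Type} [AddCommGroup G] [Fintype G]

/-- The term `f(v, k) / k (N v)^{-ks}`, at `(v, k - 1)`. -/
noncomputable def term (f : Places S → ℕ → ℂ) (s : ℂ) (x : Places S × ℕ) : ℂ :=
  f x.1 (x.2 + 1) / ((x.2 : ℂ) + 1) * ((q x.1.1 : ℂ) ^ (-s)) ^ (x.2 + 1)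

/-- What is used of a representation with the Satake parameters `a`: the logarithm of `L^S(s, A_i × A_j ⊗ ψ)`,
`A_0 = 1`, `A_1 = Ad π`, `A_2 = A⁴ π`, `ψ` a character of `G`, is the sum of the terms. -/
structure Twists (F : Places S → G) (a : Places S → Fin 2 → ℂ) : Prop where
  /-- the components are unitary -/
  unitary : ∀ v, Unitary (a v)
  /-- absolute convergence for `s > 1` -/
  conv : ∀ (i j : Fin 3) (ψ : AddChar G ℂ) (s : ℝ), 1 < s →
    Summable (term (fun v k => ad ((a v 0 / a v 1) ^ k) i * ad ((a v 0 / a v 1) ^ k) j * ψ (k • F v)) s)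
  /-- the continuation to a neighbourhood of `s = 1`: a simple pole for `i = j`, `ψ` trivial, no pole and no zero
  otherwise -/
  order : ∀ (i j : Fin 3) (ψ : AddChar G ℂ), ∃ Λ : ℂ → ℂ, MeromorphicAt Λ 1 ∧
    meromorphicOrderAt Λ 1 = ((if i = j ∧ ψ = 0 then -1 else 0 : ℤ) : WithTop ℤ) ∧
    ∀ᶠ s in 𝓝 (1 : ℂ), (1 : ℝ) < s.re → Λ s = Complex.exp (∑' x,
      term (fun v k => ad ((a v 0 / a v 1) ^ k) i * ad ((a v 0 / a v 1) ^ k) j * ψ (k • F v)) s x)

/-- What is used of a representation with trivial central character and Satake parameters `a, 1/a`: the logarithm of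
`L^S(s, Sym^i π × Sym^j π ⊗ ψ)`, `i, j ≤ 4`, is the sum of the terms. -/
structure TwistsTrivial (F : Places S → G) (a : Places S → ℂ) : Prop where
  /-- the components are unitary -/
  unitary : ∀ v, a v ≠ 0 ∧ (conj (a v) = a v ∨ conj (a v) = (a v)⁻¹)
  /-- absolute convergence for `s > 1` -/
  conv : ∀ (i j : Fin 5) (ψ : AddChar G ℂ) (s : ℝ), 1 < s →
    Summable (term (fun v k => sym (a v ^ k) i * sym (a v ^ k) j * ψ (k • F v)) s)
  /-- the continuation to a neighbourhood of `s = 1`: a simple pole for `i = j`, `ψ` trivial, no pole and no zero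
  otherwise -/
  order : ∀ (i j : Fin 5) (ψ : AddChar G ℂ), ∃ Λ : ℂ → ℂ, MeromorphicAt Λ 1 ∧
    meromorphicOrderAt Λ 1 = ((if i = j ∧ ψ = 0 then -1 else 0 : ℤ) : WithTop ℤ) ∧
    ∀ᶠ s in 𝓝 (1 : ℂ), (1 : ℝ) < s.re → Λ s = Complex.exp (∑' x,
      term (fun v k => sym (a v ^ k) i * sym (a v ^ k) j * ψ (k • F v)) s x)

/-- The set `B` of places has upper density at most `d`:
`∑_{v ∈ B} (N v)^{-s} ≤ (d + ε) log (1 / (s - 1))` for every `ε > 0` and all real `s > 1` close to `1`. -/
def UpperDensityLe (B : Set (Places S)) (d : ℝ) : Prop :=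
  ∀ ε : ℝ, 0 < ε → ∀ᶠ s : ℝ in 𝓝[>] 1,
    (Summable (B.indicator fun v => (q v.1 : ℝ) ^ (-s))) ∧
    ∑' v, B.indicator (fun v => (q v.1 : ℝ) ^ (-s)) v ≤ (d + ε) * Real.log (1 / (s - 1))

/-- the traces of `1`, `Ad π_v` and `A⁴ π_v` in terms of `y = |λ(v)|²` -/
def adPoly (y : ℝ) : Fin 3 → ℝ := ![1, y - 1, y ^ 2 - 3 * y + 1]

/-- the traces of `Sym^j π_v`, `j ≤ 4`, in terms of `x = λ(v)` -/
def symPoly (x : ℝ) : Fin 5 → ℝ := ![1, x, x ^ 2 - 1, x ^ 3 - 2 * x, x ^ 4 - 3 * x ^ 2 + 1]

/-- the trace `λ(v)` for the parameters `a, 1/a` -/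
noncomputable def lam (a : ℂ) : ℝ := (a + a⁻¹).re

theorem ud_mono {B B' : Set (Places S)} (h : B' ⊆ B) {d : ℝ} (hB : UpperDensityLe B d) :
    UpperDensityLe B' d := by
  intro ε hε
  filter_upwards [hB ε hε] with s hs
  have h1 : ∀ v, B'.indicator (fun v : Places S => (q v.1 : ℝ) ^ (-s)) v ≤
      B.indicator (fun v => (q v.1 : ℝ) ^ (-s)) v := fun v =>
    Set.indicator_le_indicator_of_subset h (fun _ => by positivity) v
  have h2 : Summable (B'.indicator fun v : Places S => (q v.1 : ℝ) ^ (-s)) :=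
    Summable.of_nonneg_of_le (fun v => Set.indicator_nonneg (fun v _ => by positivity) v) h1 hs.1
  exact ⟨h2, (h2.tsum_le_tsum h1 hs.1).trans hs.2⟩

theorem one_lt_q (v : Places S) : 1 < q v.1 := by
  have h1 : Ideal.absNorm v.1.asIdeal ≠ 0 := Ideal.absNorm_eq_zero_iff.not.2 v.1.ne_bot
  have h2 : Ideal.absNorm v.1.asIdeal ≠ 1 := fun h => v.1.isPrime.ne_top (Ideal.absNorm_eq_one_iff.1 h)
  unfold q
  omega

theorem general {F : Places S → G} {a : Places S → Fin 2 → ℂ} (h : Twists F a) (c : Fin 3 → G → ℝ) {X : ℝ}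
    (hX : 0 < X) : UpperDensityLe {v | X ≤ |∑ i, c i (F v) * adPoly (‖a v 0 + a v 1‖ ^ 2) i|}
      (((∑ i, ∑ g, c i g ^ 2) / Fintype.card G) / X ^ 2) := by
  refine Pool.Agent.X289.LinC.classes (P := Places S) (q := fun v => q v.1) (F := F)
    (T := fun i v k => Pool.Agent.X289.Sat.adR (Pool.Agent.X289.Sat.trAd fun l => a v l ^ (k + 1)) i)
    one_lt_q (fun i j ψ s hs => ?_) (fun i j ψ => ?_) c hX (fun v hv => ?_)
  · refine (h.conv i j ψ s hs).congr fun x => ?_
    unfold term Pool.Agent.X289.Lin.term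
    simp only
    rw [Pool.Agent.X289.Sat.adR_eq (h.unitary x.1), Pool.Agent.X289.Sat.adR_eq (h.unitary x.1)]
    rfl
  · obtain ⟨Λ, g1, g2, g3⟩ := h.order i j ψ
    refine ⟨Λ, g1, g2, ?_⟩
    filter_upwards [g3] with s g4 g5
    rw [g4 g5]
    congr 1
    refine tsum_congr fun x => ?_
    unfold term Pool.Agent.X289.Lin.term
    simp only
    rw [Pool.Agent.X289.Sat.adR_eq (h.unitary x.1), Pool.Agent.X289.Sat.adR_eq (h.unitary x.1)]
    rfl
  · refine le_trans hv (le_of_eq ?_)
    congr 1
    refine Finset.sum_congr rfl fun i _ => ?_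
    congr 1
    simp only [zero_add, pow_one]
    have h1 := (Pool.Agent.X289.Sat.facts (h.unitary v)).2.2.1
    have three : ∀ x : Fin 3, x = 0 ∨ x = 1 ∨ x = 2 := by decide
    rcases three i with rfl | rfl | rfl
    · rfl
    · exact h1.symm
    · have e1 : adPoly (‖a v 0 + a v 1‖ ^ 2) 2 = (‖a v 0 + a v 1‖ ^ 2) ^ 2 - 3 * ‖a v 0 + a v 1‖ ^ 2 + 1 := rfl
      have e2 : Pool.Agent.X289.Sat.adR (Pool.Agent.X289.Sat.trAd fun l => a v l) 2 =
        (Pool.Agent.X289.Sat.trAd fun l => a v l) ^ 2 - (Pool.Agent.X289.Sat.trAd fun l => a v l) - 1 := rfl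
      have e3 : (Pool.Agent.X289.Sat.trAd fun l => a v l) = ‖a v 0 + a v 1‖ ^ 2 - 1 := h1
      rw [e1, e2, e3]
      ring

theorem trivial_case {F : Places S → G} {a : Places S → ℂ} (h : TwistsTrivial F a) (c : Fin 5 → G → ℝ) {X : ℝ}
    (hX : 0 < X) : UpperDensityLe {v | X ≤ |∑ i, c i (F v) * symPoly (lam (a v)) i|}
      (((∑ i, ∑ g, c i g ^ 2) / Fintype.card G) / X ^ 2) := by
  refine Pool.Agent.X289.LinC.classes (P := Places S) (q := fun v => q v.1) (F := F)
    (T := fun i v k => Pool.Agent.X289.Sat.symR (Pool.Agent.X289.Sat.lam (a v ^ (k + 1))) i)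
    one_lt_q (fun i j ψ s hs => ?_) (fun i j ψ => ?_) c hX (fun v hv => ?_)
  · refine (h.conv i j ψ s hs).congr fun x => ?_
    unfold term Pool.Agent.X289.Lin.term
    simp only
    rw [Pool.Agent.X289.Sat.symR_eq (h.unitary x.1), Pool.Agent.X289.Sat.symR_eq (h.unitary x.1)]
    rfl
  · obtain ⟨Λ, g1, g2, g3⟩ := h.order i j ψ
    refine ⟨Λ, g1, g2, ?_⟩
    filter_upwards [g3] with s g4 g5
    rw [g4 g5]
    congr 1
    refine tsum_congr fun x => ?_
    unfold term Pool.Agent.X289.Lin.term
    simp only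
    rw [Pool.Agent.X289.Sat.symR_eq (h.unitary x.1), Pool.Agent.X289.Sat.symR_eq (h.unitary x.1)]
    rfl
  · refine le_trans hv (le_of_eq ?_)
    simp only [zero_add, pow_one]
    rfl

omit [AddCommGroup G] in
theorem sum_if [DecidableEq G] (g : G) (x : ℝ) : ∑ b, (if b = g then x else 0) ^ 2 = x ^ 2 := by
  rw [Finset.sum_eq_single g]
  · rw [if_pos rfl]
  · intro b _ hb
    rw [if_neg hb]
    ring
  · intro h
    exact absurd (Finset.mem_univ _) h

/-- **The Ramanujan conjecture for `GL(2)` in the Frobenius classes of an abelian extension.** -/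
theorem result (F : Places S → G) :
    (∀ a : Places S → Fin 2 → ℂ, Twists F a →
      (∀ g : G, UpperDensityLe {v | F v = g ∧ ¬ Tempered (a v)} (1 / (35 * Fintype.card G))) ∧
      (∀ (g : G) (T : ℝ), 1 ≤ T → 0 ≤ T ^ 4 - 3 * T ^ 2 + 1 →
        UpperDensityLe {v | F v = g ∧ T ≤ ‖a v 0 + a v 1‖}
          (1 / (Fintype.card G * (1 + (T ^ 2 - 1) ^ 2 + (T ^ 4 - 3 * T ^ 2 + 1) ^ 2)))) ∧
      ∀ (c : Fin 3 → G → ℝ) (X : ℝ), 0 < X →
        UpperDensityLe {v | X ≤ |∑ i, c i (F v) * adPoly (‖a v 0 + a v 1‖ ^ 2) i|}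
          (((∑ i, ∑ g, c i g ^ 2) / Fintype.card G) / X ^ 2)) ∧
    ∀ a : Places S → ℂ, TwistsTrivial F a →
      (∀ (g : G) (δ : ℝ), |δ| = 1 →
        UpperDensityLe {v | F v = g ∧ 2 < δ * lam (a v)} (1 / (55 * Fintype.card G))) ∧
      ∀ (c : Fin 5 → G → ℝ) (X : ℝ), 0 < X →
        UpperDensityLe {v | X ≤ |∑ i, c i (F v) * symPoly (lam (a v)) i|}
          (((∑ i, ∑ g, c i g ^ 2) / Fintype.card G) / X ^ 2) := by
  classical
  have hc : (0 : ℝ) < Fintype.card G := by
    have : 0 < Fintype.card G := Fintype.card_pos_iff.2 ⟨0⟩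
    exact_mod_cast this
  refine ⟨fun a h => ⟨fun g => ?_, fun g T hT hT2 => ?_, fun c X hX => general h c hX⟩,
    fun a h => ⟨fun g δ hδ => ?_, fun c X hX => trivial_case h c hX⟩⟩
  · have h1 := general h (![fun b => if b = g then 1 else 0, fun b => if b = g then 3 else 0,
      fun b => if b = g then 5 else 0]) (X := 35) (by norm_num)
    have e : (∑ i, ∑ b, (![fun b => if b = g then 1 else 0, fun b => if b = g then 3 else 0,
        fun b => if b = g then 5 else 0] : Fin 3 → G → ℝ) i b ^ 2) / Fintype.card G / 35 ^ 2 =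
        1 / (35 * Fintype.card G) := by
      simp only [Fin.sum_univ_three, Matrix.cons_val_zero, Matrix.cons_val_one, Matrix.cons_val, sum_if]
      field_simp
      norm_num
    rw [e] at h1
    refine ud_mono (fun v hv => ?_) h1
    obtain ⟨h2, h3⟩ := hv
    have h4 := (Pool.Agent.X289.Sat.facts (h.unitary v)).2.2.2 h3
    have h5 : Pool.Agent.X289.Sat.trAd (a v) = ‖a v 0 + a v 1‖ ^ 2 - 1 :=
      (Pool.Agent.X289.Sat.facts (h.unitary v)).2.2.1
    rw [h5] at h4
    show (35 : ℝ) ≤ |_|
    simp only [Fin.sum_univ_three, Matrix.cons_val_zero, Matrix.cons_val_one, Matrix.cons_val, h2, if_true, adPoly]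
    refine le_trans ?_ (le_abs_self _)
    nlinarith
  · set A := T ^ 2 - 1 with hA
    set B := T ^ 4 - 3 * T ^ 2 + 1 with hB
    have hA0 : 0 ≤ A := by nlinarith
    have hP : 0 < 1 + A ^ 2 + B ^ 2 := by positivity
    have h1 := general h (![fun b => if b = g then 1 else 0, fun b => if b = g then A else 0,
      fun b => if b = g then B else 0]) (X := 1 + A ^ 2 + B ^ 2) hP
    have e : (∑ i, ∑ b, (![fun b => if b = g then 1 else 0, fun b => if b = g then A else 0,
        fun b => if b = g then B else 0] : Fin 3 → G → ℝ) i b ^ 2) / Fintype.card G / (1 + A ^ 2 + B ^ 2) ^ 2 =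
        1 / (Fintype.card G * (1 + A ^ 2 + B ^ 2)) := by
      simp only [Fin.sum_univ_three, Matrix.cons_val_zero, Matrix.cons_val_one, Matrix.cons_val, sum_if]
      field_simp
    rw [e] at h1
    refine ud_mono (fun v hv => ?_) h1
    obtain ⟨h2, h3⟩ := hv
    show 1 + A ^ 2 + B ^ 2 ≤ |_|
    simp only [Fin.sum_univ_three, Matrix.cons_val_zero, Matrix.cons_val_one, Matrix.cons_val, h2, if_true, adPoly]
    refine le_trans ?_ (le_abs_self _)
    have h4 : T ^ 2 ≤ ‖a v 0 + a v 1‖ ^ 2 := pow_le_pow_left₀ (by linarith) h3 2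
    set y := ‖a v 0 + a v 1‖ ^ 2 with hy
    have hT3 : 2 ≤ T ^ 2 := by
      by_contra h5
      push Not at h5
      nlinarith
    have h5 : B ≤ y ^ 2 - 3 * y + 1 := by
      rw [hB]
      nlinarith
    have h6 : A ≤ y - 1 := by
      rw [hA]
      linarith
    nlinarith
  · have h1 := trivial_case h (![fun b => if b = g then 1 else 0, fun b => if b = g then 2 * δ else 0,
      fun b => if b = g then 3 else 0, fun b => if b = g then 4 * δ else 0,
      fun b => if b = g then 5 else 0]) (X := 55) (by norm_num)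
    have s1 : δ ^ 2 = 1 := by rw [← sq_abs, hδ, one_pow]
    have e : (∑ i, ∑ b, (![fun b => if b = g then 1 else 0, fun b => if b = g then 2 * δ else 0,
      fun b => if b = g then 3 else 0, fun b => if b = g then 4 * δ else 0,
      fun b => if b = g then 5 else 0] : Fin 5 → G → ℝ) i b ^ 2) / Fintype.card G / 55 ^ 2 =
        1 / (55 * Fintype.card G) := by
      simp only [Fin.sum_univ_five, Matrix.cons_val_zero, Matrix.cons_val_one, Matrix.cons_val, sum_if]
      have e1 : (1 : ℝ) ^ 2 + (2 * δ) ^ 2 + 3 ^ 2 + (4 * δ) ^ 2 + 5 ^ 2 = 55 := by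
        linear_combination 20 * s1
      rw [e1]
      field_simp
    rw [e] at h1
    refine ud_mono (fun v hv => ?_) h1
    obtain ⟨h2, h3⟩ := hv
    show (55 : ℝ) ≤ |_|
    simp only [Fin.sum_univ_five, Matrix.cons_val_zero, Matrix.cons_val_one, Matrix.cons_val, h2, if_true, symPoly]
    refine le_trans ?_ (le_abs_self _)
    set x := lam (a v) with hx
    have e2 : 1 * 1 + 2 * δ * x + 3 * (x ^ 2 - 1) + 4 * δ * (x ^ 3 - 2 * x) + 5 * (x ^ 4 - 3 * x ^ 2 + 1) =
        1 + 2 * (δ * x) + 3 * ((δ * x) ^ 2 - 1) + 4 * ((δ * x) ^ 3 - 2 * (δ * x)) +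
          5 * ((δ * x) ^ 4 - 3 * (δ * x) ^ 2 + 1) := by
      have t1 : (δ * x) ^ 2 = x ^ 2 := by rw [mul_pow, s1, one_mul]
      have t3 : (δ * x) ^ 3 = δ * x ^ 3 := by
        calc (δ * x) ^ 3 = δ ^ 2 * (δ * x ^ 3) := by ring
          _ = _ := by rw [s1, one_mul]
      have t4 : (δ * x) ^ 4 = x ^ 4 := by
        calc (δ * x) ^ 4 = (δ ^ 2) ^ 2 * x ^ 4 := by ring
          _ = _ := by rw [s1]; ring
      rw [t1, t3, t4]
      ring
    rw [e2]
    set y := δ * x with hy
    have y2 : 4 < y ^ 2 := by nlinarith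
    have y3 : 2 * y ^ 2 < y ^ 3 := by nlinarith
    have y4 : 4 * y ^ 2 < y ^ 4 := by nlinarith
    nlinarith

end

end Pool.Agent.Results.MP_8410ab_nt.FrobeniusClasses
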