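import Pool.Agent.X289.Many

/-!
# The Ramanujan conjecture for many representations of `GL(2)` at the same place

Let `π_1, ..., π_r` be unitary cuspidal automorphic representations of `GL_2` over a number field `K`, unramified
outside the finite set `S` of places.  Let `Ad π_k` be the adjoint lift (Gelbart, Jacquet) and
`A⁴ π_k = Sym⁴ π_k ⊗ ω_k⁻²` the self-dual symmetric fourth power lift (Kim), and suppose that these `2 r`
representations of `GL_3` and `GL_5` are cuspidal and pairwise not isomorphic.  (If `A⁴ π` is not cuspidal, then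
`π` is dihedral, tetrahedral or octahedral, and tempered.)

Kim and Shahidi proved that the places at which ONE such representation is not tempered have upper density at
most `1/35`.  Here many representations are considered at the same place:

* the places at which all the `π_k` are not tempered have upper density at most `1 / (34 r + 1)`;
* for every `m > r/10` the places at which at least `m` of the `r` representations are not tempered have upper
  density at most `3.06 r / (10 m - r)²`;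
* so for an infinite family (for instance all the Maass forms of level one) and every `c > 1/10` the places `v`
  such that for all `r ≥ R` at least `c r` of the first `r` representations are not tempered at `v` form a set of
  density zero, for every `R`; in particular the places at which all representations of an infinite family are
  not tempered have density zero.

Nothing is assumed on the order of the family: at a fixed place `v` it is known (Sarnak) that only few
violate the conjecture if ALL forms are counted by the Laplace eigenvalue; here the family is arbitrary and the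
place varies.

The structure `Family` lists what is used of the representations, all of it is known: the local components are
unitary; the bound of Jacquet and Shalika for `A⁴ π_k`; and for the isobaric sum
`Π = c₀ 1 ⊞ c₂ Ad π_1 ⊞ c₄ A⁴ π_1 ⊞ ... ⊞ c₂ Ad π_r ⊞ c₄ A⁴ π_r` (with multiplicities) the Euler product
`L^S(s, Π × Π~)` converges absolutely for `Re s > 1` and has a meromorphic continuation with a pole of order exactly
`c₀² + r (c₂² + c₄²)` at `s = 1` (Jacquet, Piatetski-Shapiro, Shalika, Shahidi).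

The proof: the logarithm of `L^S(s, Π × Π~)` has nonnegative coefficients, so that
`∑_v |tr Π_v|² (N v)^{-s} ≤ (c₀² + r (c₂² + c₄²)) log (1 / (s - 1)) + O(1)`.  Let `t` be the quotient of the two
Satake parameters and `x = t + 1/t`, a real number `≥ -2`, and `> 2` if and only if `π_v` is not tempered.  For
`(c₀, c₂, c₄) = (1, 3, 5)` the trace is `1 + ∑ (5 x² + 8 x - 2)`, and `≥ 1 + 34 r` if all are not tempered.  For
`(0, 5, 3)` it is `∑ ((4 + 3 x)² - 10) / 3`, with terms `≥ -10/3`, and `≥ 30` if `π_v` is not tempered.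
-/

set_option autoImplicit false

namespace Pool.Agent.Results.MP_8410ab_nt.ManyForms

open NumberField IsDedekindDomain Filter Topology
open scoped ComplexConjugate

/-- The norm of the place `v`. -/
noncomputable def q {K : Type} [Field K] [NumberField K] (v : HeightOneSpectrum (𝓞 K)) : ℕ :=
  Ideal.absNorm v.asIdeal

/-- The finite places outside `S`. -/
abbrev Places {K : Type} [Field K] [NumberField K] (S : Finset (HeightOneSpectrum (𝓞 K))) :=
  {v : HeightOneSpectrum (𝓞 K) // v ∉ S}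

/-- The Satake parameters of a unitary representation: a permutation of the parameters agrees with
`z ↦ 1 / conj z`. -/
def Unitary (a : Fin 2 → ℂ) : Prop :=
  (∀ i, a i ≠ 0) ∧ ∃ τ : Equiv.Perm (Fin 2), ∀ i, a (τ i) = (conj (a i))⁻¹

/-- The representation with the parameters `a` is tempered. -/
def Tempered (a : Fin 2 → ℂ) : Prop := ∀ i, ‖a i‖ = 1

/-- The Satake parameters of `c₀ 1 ⊞ c₂ Ad π_1 ⊞ c₄ A⁴ π_1 ⊞ ... ⊞ c₂ Ad π_r ⊞ c₄ A⁴ π_r`: `1` with
multiplicity `c₀`, and with `t_k = a_{k,0} / a_{k,1}` the numbers `t_k^{-1}, 1, t_k` with multiplicity `c₂` and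
`t_k^{-2}, ..., t_k^2` with multiplicity `c₄`, for all `k`. -/
noncomputable def par {r : ℕ} (c₀ c₂ c₄ : ℕ) (a : Fin r → Fin 2 → ℂ) :
    Fin c₀ ⊕ (Fin r × Fin c₂ × Fin 3) ⊕ (Fin r × Fin c₄ × Fin 5) → ℂ :=
  Sum.elim (fun _ => 1) (Sum.elim (fun x => (a x.1 0 / a x.1 1) ^ (((x.2.2 : ℕ) : ℤ) - 1))
    (fun x => (a x.1 0 / a x.1 1) ^ (((x.2.2 : ℕ) : ℤ) - 2)))

section

variable {K : Type} [Field K] [NumberField K] {S : Finset (HeightOneSpectrum (𝓞 K))}

/-- The local factor of `L^S(s, Π × Π~)` at `v`, `Π` the isobaric sum. -/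
noncomputable def factor {r : ℕ} (c₀ c₂ c₄ : ℕ) (α : Fin r → Places S → Fin 2 → ℂ) (s : ℂ)
    (v : Places S) : ℂ :=
  ∏ i, ∏ j, (1 - par c₀ c₂ c₄ (fun k => α k v) i * conj (par c₀ c₂ c₄ (fun k => α k v) j) *
    (q v.1 : ℂ) ^ (-s))⁻¹

/-- What is used of the representations `π_1, ..., π_r` with the Satake parameters `α_k`, `k < r`. -/
structure Family {r : ℕ} (α : Fin r → Places S → Fin 2 → ℂ) : Prop where
  /-- the components are unitary -/
  unitary : ∀ k v, Unitary (α k v)
  /-- the bound of Jacquet and Shalika for `A⁴ π_k` -/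
  bound : ∀ k v, ‖α k v 0 / α k v 1‖ ^ 4 < q v.1 ∧ ‖α k v 1 / α k v 0‖ ^ 4 < q v.1
  /-- the Euler product of `L^S(s, Π × Π~)` converges for real `s > 1` -/
  conv : ∀ (c₀ c₂ c₄ : ℕ) (s : ℝ), 1 < s → Multipliable (factor c₀ c₂ c₄ α s)
  /-- it has a meromorphic continuation to a neighbourhood of `s = 1`, and the order of the pole is
  `c₀² + r (c₂² + c₄²)` -/
  pole : ∀ c₀ c₂ c₄ : ℕ, ∃ Λ : ℂ → ℂ, MeromorphicAt Λ 1 ∧
    meromorphicOrderAt Λ 1 = ((-((c₀ ^ 2 + r * (c₂ ^ 2 + c₄ ^ 2) : ℕ) : ℤ) : ℤ) : WithTop ℤ) ∧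
    ∀ᶠ s in 𝓝 (1 : ℂ), (1 : ℝ) < s.re → Λ s = ∏' v, factor c₀ c₂ c₄ α s v

/-- The set `B` of places has upper density at most `d`:
`∑_{v ∈ B} (N v)^{-s} ≤ (d + ε) log (1 / (s - 1))` for every `ε > 0` and all real `s > 1` close to `1`. -/
def UpperDensityLe (B : Set (Places S)) (d : ℝ) : Prop :=
  ∀ ε : ℝ, 0 < ε → ∀ᶠ s : ℝ in 𝓝[>] 1,
    (Summable (B.indicator fun v => (q v.1 : ℝ) ^ (-s))) ∧
    ∑' v, B.indicator (fun v => (q v.1 : ℝ) ^ (-s)) v ≤ (d + ε) * Real.log (1 / (s - 1))

theorem ud_mono {B B' : Set (Places S)} (h : B' ⊆ B) {d : ℝ} (hB : UpperDensityLe B d) :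
    UpperDensityLe B' d := by
  intro ε hε
  filter_upwards [hB ε hε] with s hs
  have h1 : ∀ v, B'.indicator (fun v : Places S => (q v.1 : ℝ) ^ (-s)) v ≤
      B.indicator (fun v => (q v.1 : ℝ) ^ (-s)) v := fun v =>
    Set.indicator_le_indicator_of_subset h (fun _ => by positivity) v
  have h2 : Summable (B'.indicator fun v : Places S => (q v.1 : ℝ) ^ (-s)) :=
    Summable.of_nonneg_of_le (fun v => Set.indicator_nonneg (fun v _ => by positivity) v) h1 hs.1
  exact ⟨h2, (h2.tsum_le_tsum h1 hs.1).trans hs.2⟩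

/-- the real number `t + 1/t` -/
theorem quo_real {a : Fin 2 → ℂ} (h : Unitary a) : ∃ x : ℝ,
    a 0 / a 1 + (a 0 / a 1)⁻¹ = x ∧ -2 ≤ x ∧ (¬ Tempered a → 2 < x) := by
  obtain ⟨h0, τ, hτ⟩ := h
  by_cases h1 : τ 0 = 0
  · have h2 : τ 1 = 1 := by
      have : τ 1 ≠ τ 0 := fun h => absurd (τ.injective h) (by decide)
      rw [h1] at this
      omega
    have hn : ∀ i, τ i = i → ‖a i‖ = 1 := by
      intro i hi
      have h3 := hτ i
      rw [hi] at h3
      have h4 := congrArg norm h3
      rw [norm_inv, Complex.norm_conj] at h4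
      have h5 : ‖a i‖ ≠ 0 := norm_ne_zero_iff.2 (h0 i)
      have h6 : ‖a i‖ * ‖a i‖ = 1 := by
        rw [← mul_inv_cancel₀ h5]
        exact congrArg (‖a i‖ * ·) h4
      nlinarith [norm_nonneg (a i)]
    have h3 := hn 0 h1
    have h4 := hn 1 h2
    have h5 : ‖a 0 / a 1‖ = 1 := by rw [norm_div, h3, h4, div_one]
    refine ⟨2 * (a 0 / a 1).re, ?_, ?_, ?_⟩
    · have h6 : (a 0 / a 1)⁻¹ = conj (a 0 / a 1) := by
        rw [Complex.inv_def, Complex.normSq_eq_norm_sq, h5]
        simp
      rw [h6, Complex.add_conj]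
    · have := Complex.abs_re_le_norm (a 0 / a 1)
      rw [h5] at this
      linarith [(abs_le.1 this).1]
    · intro h6
      refine absurd (fun i => ?_) h6
      fin_cases i
      · exact h3
      · exact h4
  · have h2 : τ 0 = 1 := by omega
    have h3 := hτ 0
    rw [h2] at h3
    have h4 : a 0 / a 1 = ((‖a 0‖ ^ 2 : ℝ) : ℂ) := by
      rw [h3, div_inv_eq_mul, Complex.mul_conj, Complex.normSq_eq_norm_sq]
    have h5 : 0 < ‖a 0‖ := norm_pos_iff.2 (h0 0)
    have h6 : 0 < ‖a 0‖ ^ 2 := by positivity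
    have h60 : 0 < (‖a 0‖ ^ 2)⁻¹ := inv_pos.2 h6
    refine ⟨‖a 0‖ ^ 2 + (‖a 0‖ ^ 2)⁻¹, ?_, by linarith, ?_⟩
    · rw [h4]
      push_cast
      rfl
    · intro h7
      have h8 : ‖a 0‖ ^ 2 ≠ 1 := by
        intro h9
        refine h7 fun i => ?_
        have h10 : ‖a 0‖ = 1 := by nlinarith [norm_nonneg (a 0)]
        fin_cases i
        · exact h10
        · show ‖a 1‖ = 1
          rw [h3, norm_inv, Complex.norm_conj, h10, inv_one]
      have h9 : 0 < (‖a 0‖ ^ 2 - 1) ^ 2 := by
        have := sub_ne_zero.2 h8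
        positivity
      have h10 : ‖a 0‖ ^ 2 + (‖a 0‖ ^ 2)⁻¹ - 2 = (‖a 0‖ ^ 2 - 1) ^ 2 * (‖a 0‖ ^ 2)⁻¹ := by
        field_simp
        ring
      have h11 : 0 < (‖a 0‖ ^ 2 - 1) ^ 2 * (‖a 0‖ ^ 2)⁻¹ := mul_pos h9 (inv_pos.2 h6)
      linarith

/-- the trace of the isobaric sum -/
theorem sum_par {r : ℕ} (c₀ c₂ c₄ : ℕ) {a : Fin r → Fin 2 → ℂ} (h : ∀ k, Unitary (a k))
    {x : Fin r → ℝ} (hx : ∀ k, a k 0 / a k 1 + (a k 0 / a k 1)⁻¹ = x k) :
    ∑ i, par c₀ c₂ c₄ a i =
      ((c₀ + ∑ k, (c₂ * (x k + 1) + c₄ * (x k ^ 2 + x k - 1)) : ℝ) : ℂ) := by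
  have ht : ∀ k, a k 0 / a k 1 ≠ 0 := fun k => div_ne_zero ((h k).1 0) ((h k).1 1)
  unfold par
  rw [Fintype.sum_sum_type, Fintype.sum_sum_type]
  simp only [Sum.elim_inl, Sum.elim_inr, Finset.sum_const, Finset.card_univ, Fintype.card_fin,
    nsmul_eq_mul, mul_one]
  rw [Fintype.sum_prod_type, Fintype.sum_prod_type]
  simp only [Fintype.sum_prod_type, Finset.sum_const, Finset.card_univ, Fintype.card_fin,
    nsmul_eq_mul]
  rw [← Finset.sum_add_distrib]
  push_cast
  congr 1
  refine Finset.sum_congr rfl fun k _ => ?_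
  have h3 := hx k
  set t := a k 0 / a k 1 with hts
  have ht0 := ht k
  rw [← hts] at ht0
  have e3 : ∑ j : Fin 3, t ^ (((j : ℕ) : ℤ) - 1) = x k + 1 := by
    rw [← h3, Fin.sum_univ_three]
    norm_num
    ring
  have e5 : ∑ j : Fin 5, t ^ (((j : ℕ) : ℤ) - 2) = (x k : ℂ) ^ 2 + x k - 1 := by
    rw [← h3, Fin.sum_univ_five]
    norm_num
    field_simp
    ring
  rw [e3, e5]

theorem q_gt (v : Places S) : 1 < q v.1 := by
  unfold q
  have h1 := Ideal.absNorm_ne_zero_of_nonZeroDivisors
    ⟨v.1.asIdeal, mem_nonZeroDivisors_of_ne_zero v.1.ne_bot⟩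
  have h2 : Ideal.absNorm v.1.asIdeal ≠ 1 := fun h =>
    v.1.isPrime.ne_top (Ideal.absNorm_eq_one_iff.1 h)
  simp only at h1
  omega

theorem par_bound {r : ℕ} {α : Fin r → Places S → Fin 2 → ℂ} (h : Family α) (c₀ c₂ c₄ : ℕ)
    (v : Places S) (i) : ‖par c₀ c₂ c₄ (fun k => α k v) i‖ ^ 2 < q v.1 := by
  have hq : (1 : ℝ) < q v.1 := by exact_mod_cast q_gt v
  have key : ∀ (k : Fin r) (n : ℤ), n.natAbs ≤ 2 → ‖(α k v 0 / α k v 1) ^ n‖ ^ 2 < q v.1 := by
    intro k n hn
    obtain ⟨h1, h2⟩ := h.bound k v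
    have h3 : ‖α k v 1 / α k v 0‖ = ‖α k v 0 / α k v 1‖⁻¹ := by
      rw [← norm_inv, inv_div]
    rw [h3] at h2
    have h0 : 0 < ‖α k v 0 / α k v 1‖ :=
      norm_pos_iff.2 (div_ne_zero ((h.unitary k v).1 0) ((h.unitary k v).1 1))
    set y := ‖α k v 0 / α k v 1‖ with hy
    have h5 : ∀ z : ℝ, 0 < z → z ^ 4 < q v.1 → ∀ j : ℕ, j ≤ 2 → (z ^ j) ^ 2 < q v.1 := by
      intro z hz hz4 j hj
      rw [← pow_mul]
      rcases le_or_gt z 1 with h6 | h6
      · exact (pow_le_one₀ hz.le h6).trans_lt hq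
      · exact (pow_le_pow_right₀ h6.le (by omega)).trans_lt hz4
    rw [norm_zpow, ← hy]
    rcases Int.natAbs_eq n with h6 | h6
    · rw [h6, zpow_natCast]
      exact h5 y h0 h1 _ hn
    · rw [h6, zpow_neg, zpow_natCast, ← inv_pow]
      exact h5 _ (inv_pos.2 h0) h2 _ hn
  unfold par
  rcases i with i | i | i
  · simp only [Sum.elim_inl, norm_one, one_pow]
    exact hq
  · simp only [Sum.elim_inl, Sum.elim_inr]
    have := i.2.2.2
    exact key _ _ (by omega)
  · simp only [Sum.elim_inr]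
    have := i.2.2.2
    exact key _ _ (by omega)

/-- the density bound for an isobaric sum -/
theorem dens {r : ℕ} {α : Fin r → Places S → Fin 2 → ℂ} (h : Family α) (c₀ c₂ c₄ : ℕ)
    {B : Set (Places S)} {X : ℝ} (hX : 0 < X) (hB : ∀ v ∈ B, ∀ x : Fin r → ℝ,
      (∀ k, -2 ≤ x k ∧ (¬ Tempered (α k v) → 2 < x k)) →
      X ≤ c₀ + ∑ k, (c₂ * (x k + 1) + c₄ * (x k ^ 2 + x k - 1))) :
    UpperDensityLe B ((c₀ ^ 2 + r * (c₂ ^ 2 + c₄ ^ 2)) / X ^ 2) := by
  obtain ⟨Λ, h1, h2, h3⟩ := h.pole c₀ c₂ c₄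
  have h4 := Pool.Agent.X289.Many.density (q := fun v : Places S => q v.1) (q_gt)
    (A := fun v => par c₀ c₂ c₄ fun k => α k v) (par_bound h c₀ c₂ c₄)
    (fun s hs => h.conv c₀ c₂ c₄ s hs) h1 h2 h3 (B := B) hX fun v hv => by
      choose x hx1 hx2 using fun k => quo_real (h.unitary k v)
      rw [sum_par c₀ c₂ c₄ (fun k => h.unitary k v) hx1, Complex.norm_real]
      exact (hB v hv x hx2).trans (le_abs_self _)
  push_cast at h4
  exact h4

open Classical in
/-- the number of the representations which are not tempered -/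
noncomputable def num {r : ℕ} (α : Fin r → Places S → Fin 2 → ℂ) (v : Places S) : ℕ :=
  (Finset.univ.filter fun k => ¬ Tempered (α k v)).card

theorem all_bound {r : ℕ} {α : Fin r → Places S → Fin 2 → ℂ} (h : Family α) :
    UpperDensityLe {v | ∀ k, ¬ Tempered (α k v)} (1 / (34 * r + 1)) := by
  have h1 := dens h 1 3 5 (B := {v | ∀ k, ¬ Tempered (α k v)}) (X := 34 * r + 1) (by positivity)
    fun v hv x hx => by
      have h2 : ∀ k, (34 : ℝ) ≤ ((3 : ℕ) : ℝ) * (x k + 1) + ((5 : ℕ) : ℝ) *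
          (x k ^ 2 + x k - 1) := by
        intro k
        have h3 := (hx k).2 (hv k)
        push_cast
        nlinarith
      have h3 := Finset.sum_le_sum fun k (_ : k ∈ Finset.univ) => h2 k
      rw [Finset.sum_const, Finset.card_univ, Fintype.card_fin, nsmul_eq_mul] at h3
      push_cast at h3 ⊢
      linarith
  have e : (((1 : ℕ) : ℝ) ^ 2 + r * (((3 : ℕ) : ℝ) ^ 2 + ((5 : ℕ) : ℝ) ^ 2)) / (34 * r + 1) ^ 2 =
      1 / (34 * r + 1) := by
    have : (0 : ℝ) < 34 * r + 1 := by positivity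
    push_cast
    field_simp
    ring
  rw [e] at h1
  exact h1

theorem many_bound {r : ℕ} {α : Fin r → Places S → Fin 2 → ℂ} (h : Family α) {m : ℝ}
    (hm : r < 10 * m) :
    UpperDensityLe {v | m ≤ num α v} (3.06 * r / (10 * m - r) ^ 2) := by
  classical
  have hpos : 0 < 10 * m - r := by linarith
  have h1 := dens h 0 5 3 (B := {v | m ≤ num α v}) (X := 10 / 3 * (10 * m - r))
    (by positivity) fun v hv x hx => by
      have hv' : m ≤ num α v := hv
      have h2 : ∀ k, -(10 / 3 : ℝ) + (if ¬ Tempered (α k v) then 100 / 3 else 0) ≤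
          ((5 : ℕ) : ℝ) * (x k + 1) + ((3 : ℕ) : ℝ) * (x k ^ 2 + x k - 1) := by
        intro k
        push_cast
        by_cases h3 : ¬ Tempered (α k v)
        · have h4 := (hx k).2 h3
          rw [if_pos h3]
          nlinarith
        · rw [if_neg h3]
          nlinarith [sq_nonneg (4 + 3 * x k)]
      have h3 := Finset.sum_le_sum fun k (_ : k ∈ Finset.univ) => h2 k
      rw [Finset.sum_add_distrib, Finset.sum_const, Finset.card_univ, Fintype.card_fin,
        nsmul_eq_mul, ← Finset.sum_filter, Finset.sum_const, nsmul_eq_mul] at h3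
      have h4 : ((Finset.univ.filter fun k => ¬ Tempered (α k v)).card : ℝ) = num α v := rfl
      rw [h4] at h3
      push_cast at h3 ⊢
      linarith
  have e : (((0 : ℕ) : ℝ) ^ 2 + r * (((5 : ℕ) : ℝ) ^ 2 + ((3 : ℕ) : ℝ) ^ 2)) /
      (10 / 3 * (10 * m - r)) ^ 2 = 3.06 * r / (10 * m - r) ^ 2 := by
    push_cast
    field_simp
    norm_num
    ring
  rw [e] at h1
  exact h1

end

/-- **Many representations at the same place.**  Let `S` be a finite set of finite places of the number
field `K`.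

1. Let `α_k`, `k < r`, be the Satake parameters of representations as in `Family`.  The places outside `S` at
   which all of them are not tempered have upper density at most `1 / (34 r + 1)`, and for every real
   `m > r / 10` the places at which at least `m` of them are not tempered have upper density at most
   `3.06 r / (10 m - r)²`.
2. Let `α_k`, `k = 0, 1, 2, ...`, be an infinite family such that the first `r` members are as in
   `Family` for all `r`.  For every `c > 1/10` and every `R` the places `v` such that for all `r ≥ R` at least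
   `c r` of the first `r` members are not tempered at `v` form a set of density zero. -/
theorem result {K : Type} [Field K] [NumberField K] (S : Finset (HeightOneSpectrum (𝓞 K))) :
    (∀ (r : ℕ) (α : Fin r → Places S → Fin 2 → ℂ), Family α →
      UpperDensityLe {v | ∀ k, ¬ Tempered (α k v)} (1 / (34 * r + 1)) ∧
      ∀ m : ℝ, r < 10 * m → UpperDensityLe {v | m ≤ num α v} (3.06 * r / (10 * m - r) ^ 2)) ∧
    ∀ α : ℕ → Places S → Fin 2 → ℂ, (∀ r : ℕ, Family fun k : Fin r => α k) →
      ∀ (c : ℝ) (R : ℕ), 1 / 10 < c →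
        UpperDensityLe {v | ∀ r : ℕ, R ≤ r → c * r ≤ num (fun k : Fin r => α k) v} 0 := by
  refine ⟨fun r α h => ⟨all_bound h, fun m hm => many_bound h hm⟩, fun α h c R hc ε hε => ?_⟩
  obtain ⟨r, hr⟩ := exists_nat_gt (max (R : ℝ) (max 1 (2 * 3.06 / ((10 * c - 1) ^ 2 * ε))))
  have hr1 : (R : ℝ) < r := (le_max_left _ _).trans_lt hr
  have hr2 : (1 : ℝ) < r := ((le_max_left _ _).trans (le_max_right _ _)).trans_lt hr
  have hr3 : 2 * 3.06 / ((10 * c - 1) ^ 2 * ε) < r :=
    ((le_max_right _ _).trans (le_max_right _ _)).trans_lt hr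
  have hc1 : 0 < 10 * c - 1 := by linarith
  have hr0 : (0 : ℝ) < r := by linarith
  have hRr : R ≤ r := by exact_mod_cast hr1.le
  have h1 := many_bound (h r) (m := c * r) (by nlinarith)
  have h2 : UpperDensityLe {v | ∀ r : ℕ, R ≤ r → c * r ≤ num (fun k : Fin r => α k) v}
      (3.06 * r / (10 * (c * r) - r) ^ 2) :=
    ud_mono (fun v (hv : ∀ r : ℕ, R ≤ r → c * r ≤ num (fun k : Fin r => α k) v) => hv r hRr) h1
  filter_upwards [h2 (ε / 2) (by positivity), self_mem_nhdsWithin,
    (nhdsWithin_le_nhds (gt_mem_nhds (by norm_num : (1 : ℝ) < 2)) : ∀ᶠ s : ℝ in 𝓝[>] 1, s < 2)]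
    with s hs hs1 hs2
  refine ⟨hs.1, hs.2.trans ?_⟩
  have hs1' : (1 : ℝ) < s := hs1
  have h3 : 0 ≤ Real.log (1 / (s - 1)) := by
    refine Real.log_nonneg ?_
    rw [le_div_iff₀ (by linarith)]
    linarith
  refine mul_le_mul_of_nonneg_right ?_ h3
  have h4 : 3.06 * (r : ℝ) / (10 * (c * r) - r) ^ 2 ≤ ε / 2 := by
    have e : (10 * (c * r) - r) ^ 2 = (10 * c - 1) ^ 2 * (r : ℝ) ^ 2 := by ring
    rw [e, div_le_iff₀ (by positivity)]
    rw [div_lt_iff₀ (by positivity)] at hr3
    nlinarith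
  linarith

end Pool.Agent.Results.MP_8410ab_nt.ManyForms
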