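import Pool.Agent.X289.Lin

/-!
# The Ramanujan conjecture for two representations of `GL(2)` at the same place

Let `π_1` and `π_2` be unitary cuspidal automorphic representations of `GL_2` over a number field `K`, unramified
outside the finite set `S` of places, such that the lifts `Ad π_i` and `A⁴ π_i = Sym⁴ π_i ⊗ ω_i⁻²` are cuspidal and
`Ad π_1 ≇ Ad π_2`, `A⁴ π_1 ≇ A⁴ π_2`.  Let `λ_i(v)` be the trace of the Satake parameters.

1. The places at which both representations are not tempered have upper density at most `1/100`.  For all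
   `T_1, T_2 ≥ 1` the places with `|λ_1(v)| ≥ T_1` and `|λ_2(v)| ≥ T_2` have upper density at most
   `1 / ((1 + (T_1² - 1)²) (1 + (T_2² - 1)²))`.
2. Suppose in addition that the central characters are trivial, that the `Sym^j π_i`, `j ≤ 4`, are cuspidal and
   `Sym^j π_1 ≇ Sym^j π_2` for `1 ≤ j ≤ 4`.  Then for all signs the places with `± λ_1(v) > 2` and `± λ_2(v) > 2` have
   upper density at most `1/196`, and the places at which both are not tempered and `λ_1(v) λ_2(v)` has a prescribed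
   sign have upper density at most `1/116`.
3. More generally, for every real polynomial `P = ∑_{i, j ≤ 2} c_{ij} U_i(λ_1) U_j(λ_2)`, `U_0 = 1`, `U_1(x) = x`,
   `U_2(x) = x² - 1`, the places with `|P(λ_1(v), λ_2(v))| ≥ X` have upper density at most `∑ c_{ij}² / X²`, as
   for independent random variables with the law of Sato and Tate.

Kim and Shahidi proved that the places at which ONE such representation is not tempered have upper density at
most `1/35`.  For the places at which two are not tempered the isobaric sum of all the lifts gives `1/69`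
(`ManyForms` of this problem).  Here a quadratic form is used which does not come from a sum of automorphic
representations:  `1 + 3 Ad π_1 + 3 Ad π_2 + 9 Ad π_1 ⊠ Ad π_2`.  It is not known that `Ad π_1 ⊠ Ad π_2` is automorphic,
but all that is needed is the pole at `s = 1` of the product of this formal sum with its dual, and

  `Ad π_1 ⊠ Ad π_2 × Ad π_1 ⊠ Ad π_2 = (1 + Ad π_1 + A⁴ π_1) × (1 + Ad π_2 + A⁴ π_2)`,

so that it is a product of `L`-functions of Rankin and Selberg.  The logarithm has nonnegative coefficients,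
`|tr|² / k`, and at a place where both are not tempered the trace is at least `(1 + 3 · 3)² = 100`.

The structures `Pair` and `PairTrivial` list what is used.  All of it is known: the local components are unitary; for
real `s > 1` the logarithm of `L^S(s, Π_1 × Π_2)` converges absolutely, `Π_1` and `Π_2` being lifts of `π_1` and `π_2`
(Jacquet, Shalika), and it has a continuation to a neighbourhood of `s = 1`, which is meromorphic with a simple pole if
`Π_1 = Π_2 = 1`, and holomorphic and not zero otherwise (Jacquet, Piatetski-Shapiro, Shalika, Shahidi).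
-/

set_option autoImplicit false

namespace Pool.Agent.Results.MP_8410ab_nt.PairsOfForms

open NumberField IsDedekindDomain Filter Topology
open scoped ComplexConjugate

/-- The norm of the place `v`. -/
noncomputable def q {K : Type} [Field K] [NumberField K] (v : HeightOneSpectrum (𝓞 K)) : ℕ :=
  Ideal.absNorm v.asIdeal

/-- The finite places outside `S`. -/
abbrev Places {K : Type} [Field K] [NumberField K] (S : Finset (HeightOneSpectrum (𝓞 K))) :=
  {v : HeightOneSpectrum (𝓞 K) // v ∉ S}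

/-- The Satake parameters of a unitary representation: a permutation of the parameters agrees with
`z ↦ 1 / conj z`. -/
def Unitary (a : Fin 2 → ℂ) : Prop :=
  (∀ i, a i ≠ 0) ∧ ∃ τ : Equiv.Perm (Fin 2), ∀ i, a (τ i) = (conj (a i))⁻¹

/-- The representation with the parameters `a` is tempered. -/
def Tempered (a : Fin 2 → ℂ) : Prop := ∀ i, ‖a i‖ = 1

/-- The traces of `1`, `Ad` and `A⁴` for parameters with the quotient `t`. -/
noncomputable def ad (t : ℂ) : Fin 3 → ℂ := ![1, t + 1 + t⁻¹, t ^ 2 + t + 1 + t⁻¹ + t⁻¹ ^ 2]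

/-- The traces of `Sym^j`, `j ≤ 4`, for the parameters `z` and `1 / z`. -/
noncomputable def sym (z : ℂ) : Fin 5 → ℂ :=
  ![1, z + z⁻¹, z ^ 2 + 1 + z⁻¹ ^ 2, z ^ 3 + z + z⁻¹ + z⁻¹ ^ 3, z ^ 4 + z ^ 2 + 1 + z⁻¹ ^ 2 + z⁻¹ ^ 4]

/-- The polynomials `U_0`, `U_1`, `U_2`. -/
def U (x : ℝ) : Fin 3 → ℝ := ![1, x, x ^ 2 - 1]

section

variable {K : Type} [Field K] [NumberField K] {S : Finset (HeightOneSpectrum (𝓞 K))}

/-- The term `f(v, k) / k (N v)^{-ks}`, at `(v, k - 1)`. -/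
noncomputable def term (f : Places S → ℕ → ℂ) (s : ℂ) (x : Places S × ℕ) : ℂ :=
  f x.1 (x.2 + 1) / ((x.2 : ℂ) + 1) * ((q x.1.1 : ℂ) ^ (-s)) ^ (x.2 + 1)

/-- What is used of two representations with the Satake parameters `a` and `b`: the logarithm of
`L^S(s, Π_1 × Π_2)`, `Π_1 = 1, Ad π_1, A⁴ π_1` and `Π_2 = 1, Ad π_2, A⁴ π_2`, is the sum of the terms. -/
structure Pair (a b : Places S → Fin 2 → ℂ) : Prop where
  /-- the components are unitary -/
  unitary : ∀ v, Unitary (a v) ∧ Unitary (b v)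
  /-- absolute convergence for `s > 1` -/
  conv : ∀ (i j : Fin 3) (s : ℝ), 1 < s →
    Summable (term (fun v k => ad ((a v 0 / a v 1) ^ k) i * ad ((b v 0 / b v 1) ^ k) j) s)
  /-- the continuation to a neighbourhood of `s = 1`: a simple pole for `i = j = 0`, no pole and no zero otherwise -/
  order : ∀ i j : Fin 3, ∃ Λ : ℂ → ℂ, MeromorphicAt Λ 1 ∧
    meromorphicOrderAt Λ 1 = ((if i = 0 ∧ j = 0 then -1 else 0 : ℤ) : WithTop ℤ) ∧
    ∀ᶠ s in 𝓝 (1 : ℂ), (1 : ℝ) < s.re → Λ s = Complex.exp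
      (∑' x, term (fun v k => ad ((a v 0 / a v 1) ^ k) i * ad ((b v 0 / b v 1) ^ k) j) s x)

/-- What is used of two representations with trivial central characters and Satake parameters `a, 1/a` and
`b, 1/b`: the logarithm of `L^S(s, Sym^i π_1 × Sym^j π_2)`, `i, j ≤ 4`, is the sum of the terms. -/
structure PairTrivial (a b : Places S → ℂ) : Prop where
  /-- the components are unitary -/
  unitary : ∀ v, (a v ≠ 0 ∧ (conj (a v) = a v ∨ conj (a v) = (a v)⁻¹)) ∧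
    (b v ≠ 0 ∧ (conj (b v) = b v ∨ conj (b v) = (b v)⁻¹))
  /-- absolute convergence for `s > 1` -/
  conv : ∀ (i j : Fin 5) (s : ℝ), 1 < s → Summable (term (fun v k => sym (a v ^ k) i * sym (b v ^ k) j) s)
  /-- the continuation to a neighbourhood of `s = 1`: a simple pole for `i = j = 0`, no pole and no zero otherwise -/
  order : ∀ i j : Fin 5, ∃ Λ : ℂ → ℂ, MeromorphicAt Λ 1 ∧
    meromorphicOrderAt Λ 1 = ((if i = 0 ∧ j = 0 then -1 else 0 : ℤ) : WithTop ℤ) ∧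
    ∀ᶠ s in 𝓝 (1 : ℂ), (1 : ℝ) < s.re → Λ s = Complex.exp
      (∑' x, term (fun v k => sym (a v ^ k) i * sym (b v ^ k) j) s x)

/-- The set `B` of places has upper density at most `d`:
`∑_{v ∈ B} (N v)^{-s} ≤ (d + ε) log (1 / (s - 1))` for every `ε > 0` and all real `s > 1` close to `1`. -/
def UpperDensityLe (B : Set (Places S)) (d : ℝ) : Prop :=
  ∀ ε : ℝ, 0 < ε → ∀ᶠ s : ℝ in 𝓝[>] 1,
    (Summable (B.indicator fun v => (q v.1 : ℝ) ^ (-s))) ∧
    ∑' v, B.indicator (fun v => (q v.1 : ℝ) ^ (-s)) v ≤ (d + ε) * Real.log (1 / (s - 1))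

/-- the trace of `Ad π_v` -/
noncomputable def trAd (a : Fin 2 → ℂ) : ℝ := (a 0 / a 1 + 1 + (a 0 / a 1)⁻¹).re

/-- the trace `λ(v)` for the parameters `a, 1/a` -/
noncomputable def lam (a : ℂ) : ℝ := (a + a⁻¹).re

theorem ud_mono {B B' : Set (Places S)} (h : B' ⊆ B) {d : ℝ} (hB : UpperDensityLe B d) :
    UpperDensityLe B' d := by
  intro ε hε
  filter_upwards [hB ε hε] with s hs
  have h1 : ∀ v, B'.indicator (fun v : Places S => (q v.1 : ℝ) ^ (-s)) v ≤
      B.indicator (fun v => (q v.1 : ℝ) ^ (-s)) v := fun v =>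
    Set.indicator_le_indicator_of_subset h (fun _ => by positivity) v
  have h2 : Summable (B'.indicator fun v : Places S => (q v.1 : ℝ) ^ (-s)) :=
    Summable.of_nonneg_of_le (fun v => Set.indicator_nonneg (fun v _ => by positivity) v) h1 hs.1
  exact ⟨h2, (h2.tsum_le_tsum h1 hs.1).trans hs.2⟩

theorem one_lt_q (v : Places S) : 1 < q v.1 := by
  have h1 : Ideal.absNorm v.1.asIdeal ≠ 0 := Ideal.absNorm_eq_zero_iff.not.2 v.1.ne_bot
  have h2 : Ideal.absNorm v.1.asIdeal ≠ 1 := fun h => v.1.isPrime.ne_top (Ideal.absNorm_eq_one_iff.1 h)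
  unfold q
  omega

/-- the facts on a unitary parameter -/
theorem facts {a : Fin 2 → ℂ} (h : Unitary a) :
    (a 0 / a 1 ≠ 0) ∧ ((trAd a : ℝ) : ℂ) = a 0 / a 1 + 1 + (a 0 / a 1)⁻¹ ∧
      trAd a = ‖a 0 + a 1‖ ^ 2 - 1 ∧ (¬ Tempered a → 3 < trAd a) := by
  obtain ⟨h0, τ, hτ⟩ := h
  have ht : a 0 / a 1 ≠ 0 := div_ne_zero (h0 0) (h0 1)
  have two : ∀ x : Fin 2, x = 0 ∨ x = 1 := by decide
  refine ⟨ht, ?_⟩
  by_cases h1 : τ 0 = 0
  · have h2 : τ 1 = 1 := by
      have : τ 1 ≠ τ 0 := fun h => absurd (τ.injective h) (by decide)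
      rw [h1] at this
      omega
    have hn : ∀ i, τ i = i → ‖a i‖ = 1 := by
      intro i hi
      have h3 := hτ i
      rw [hi] at h3
      have h4 := congrArg norm h3
      rw [norm_inv, Complex.norm_conj] at h4
      have h5 : ‖a i‖ ≠ 0 := norm_ne_zero_iff.2 (h0 i)
      have h6 : ‖a i‖ * ‖a i‖ = 1 := by
        rw [← mul_inv_cancel₀ h5]
        exact congrArg (‖a i‖ * ·) h4
      nlinarith [norm_nonneg (a i)]
    have h3 := hn 0 h1
    have h4 := hn 1 h2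
    have c0 : (a 0)⁻¹ = conj (a 0) := by
      rw [Complex.inv_def, Complex.normSq_eq_norm_sq, h3]
      simp
    have c1 : (a 1)⁻¹ = conj (a 1) := by
      rw [Complex.inv_def, Complex.normSq_eq_norm_sq, h4]
      simp
    have h5 : a 0 / a 1 + 1 + (a 0 / a 1)⁻¹ = ((‖a 0 + a 1‖ ^ 2 - 1 : ℝ) : ℂ) := by
      have h6 : ((‖a 0 + a 1‖ ^ 2 : ℝ) : ℂ) = (a 0 + a 1) * conj (a 0 + a 1) := by
        rw [Complex.mul_conj, Complex.normSq_eq_norm_sq]
      rw [Complex.ofReal_sub, h6, map_add, ← c0, ← c1, Complex.ofReal_one]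
      have e0 := h0 0
      have e1 := h0 1
      field_simp
      ring
    have h7 : trAd a = ‖a 0 + a 1‖ ^ 2 - 1 := by
      unfold trAd
      rw [h5, Complex.ofReal_re]
    refine ⟨by rw [h7, h5], h7, fun h8 => absurd (fun i => ?_) h8⟩
    rcases two i with rfl | rfl
    · exact h3
    · exact h4
  · have h2 : τ 0 = 1 := by omega
    have h3 := hτ 0
    rw [h2] at h3
    have h4 : a 0 / a 1 = ((‖a 0‖ ^ 2 : ℝ) : ℂ) := by
      rw [h3, div_inv_eq_mul, Complex.mul_conj, Complex.normSq_eq_norm_sq]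
    have h5 : 0 < ‖a 0‖ := norm_pos_iff.2 (h0 0)
    have h6 : 0 < ‖a 0‖ ^ 2 := by positivity
    have h60 : 0 < (‖a 0‖ ^ 2)⁻¹ := inv_pos.2 h6
    have h7 : a 0 / a 1 + 1 + (a 0 / a 1)⁻¹ = ((‖a 0‖ ^ 2 + 1 + (‖a 0‖ ^ 2)⁻¹ : ℝ) : ℂ) := by
      rw [h4]
      push_cast
      ring
    have h8 : trAd a = ‖a 0‖ ^ 2 + 1 + (‖a 0‖ ^ 2)⁻¹ := by
      unfold trAd
      rw [h7, Complex.ofReal_re]
    have h9 : ‖a 0 + a 1‖ ^ 2 = ‖a 0‖ ^ 2 + 2 + (‖a 0‖ ^ 2)⁻¹ := by
      have e1 : a 1 = a 0 * (((‖a 0‖ ^ 2)⁻¹ : ℝ) : ℂ) := by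
        have e2 : a 0 * conj (a 0) = ((‖a 0‖ ^ 2 : ℝ) : ℂ) := by
          rw [Complex.mul_conj, Complex.normSq_eq_norm_sq]
        have e3 : conj (a 0) ≠ 0 := (map_ne_zero _).2 (h0 0)
        rw [h3, Complex.ofReal_inv, ← e2, mul_inv, ← mul_assoc, mul_inv_cancel₀ (h0 0), one_mul]
      have e4 : a 0 + a 1 = a 0 * ((1 + (‖a 0‖ ^ 2)⁻¹ : ℝ) : ℂ) := by
        rw [e1]
        push_cast
        ring
      rw [e4, norm_mul, Complex.norm_real, Real.norm_of_nonneg (by positivity)]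
      field_simp
      ring
    refine ⟨by rw [h8, h7], by rw [h8, h9]; ring, fun h10 => ?_⟩
    have h11 : ‖a 0‖ ^ 2 ≠ 1 := by
      intro h12
      refine h10 fun i => ?_
      have h13 : ‖a 0‖ = 1 := by nlinarith [norm_nonneg (a 0)]
      rcases two i with rfl | rfl
      · exact h13
      · rw [h3, norm_inv, Complex.norm_conj, h13, inv_one]
    have h12 : 0 < (‖a 0‖ ^ 2 - 1) ^ 2 := by
      have := sub_ne_zero.2 h11
      positivity
    have h13 : ‖a 0‖ ^ 2 + (‖a 0‖ ^ 2)⁻¹ - 2 = (‖a 0‖ ^ 2 - 1) ^ 2 * (‖a 0‖ ^ 2)⁻¹ := by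
      field_simp
      ring
    have h14 : 0 < (‖a 0‖ ^ 2 - 1) ^ 2 * (‖a 0‖ ^ 2)⁻¹ := mul_pos h12 (inv_pos.2 h6)
    rw [h8]
    linarith

theorem unitary_pow {a : Fin 2 → ℂ} (h : Unitary a) (k : ℕ) : Unitary fun i => a i ^ k := by
  obtain ⟨h0, τ, hτ⟩ := h
  refine ⟨fun i => pow_ne_zero _ (h0 i), τ, fun i => ?_⟩
  show a (τ i) ^ k = (conj (a i ^ k))⁻¹
  rw [hτ i, inv_pow, map_pow]

theorem general {a b : Places S → Fin 2 → ℂ} (h : Pair a b) (c : Fin 2 → Fin 2 → ℝ) {X : ℝ} (hX : 0 < X) :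
    UpperDensityLe {v | X ≤ |c 0 0 + c 1 0 * trAd (a v) + c 0 1 * trAd (b v) +
      c 1 1 * (trAd (a v) * trAd (b v))|} ((c 0 0 ^ 2 + c 1 0 ^ 2 + c 0 1 ^ 2 + c 1 1 ^ 2) / X ^ 2) := by
  have hF : ∀ {d : Fin 2 → ℂ} (_ : Unitary d) (k : ℕ) (i j : Fin 2),
      (((![1, trAd fun l => d l ^ (k + 1)] : Fin 2 → ℝ) i : ℝ) : ℂ) *
        (((![1, trAd fun l => d l ^ (k + 1)] : Fin 2 → ℝ) j : ℝ) : ℂ) =
        ∑ e, (((![![![1, 0, 0], ![0, 1, 0]], ![![0, 1, 0], ![1, 1, 1]]] : Fin 2 → Fin 2 → Fin 3 → ℝ) i j e : ℝ) : ℂ) *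
          ad ((d 0 / d 1) ^ (k + 1)) e := by
    intro d hd k i j
    obtain ⟨f1, f2, -, -⟩ := facts (unitary_pow hd (k + 1))
    rw [← div_pow] at f1 f2
    set t := (d 0 / d 1) ^ (k + 1) with ht
    set x := trAd fun l => d l ^ (k + 1) with hx
    rw [Fin.sum_univ_three]
    fin_cases i <;> fin_cases j
    · simp [ad]
    · simp [ad, f2]
    · simp [ad, f2]
    · simp only [ad, f2, Fin.mk_one, Matrix.cons_val_one, Matrix.cons_val_zero, Matrix.cons_val_two,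
        Complex.ofReal_one, Matrix.tail_cons, Matrix.head_cons, one_mul, Fin.isValue, Matrix.cons_val_fin_one,
        Matrix.cons_val]
      field_simp
      ring
  have h1 := Pool.Agent.X289.Lin.pair (P := Places S) (q := fun v => q v.1) one_lt_q
    (N := ![![![1, 0, 0], ![0, 1, 0]], ![![0, 1, 0], ![1, 1, 1]]]) (j0 := 0)
    (by intro a c; fin_cases a <;> fin_cases c <;> simp)
    (F1 := fun i v k => (![1, trAd fun l => a v l ^ (k + 1)] : Fin 2 → ℝ) i)
    (F2 := fun i v k => (![1, trAd fun l => b v l ^ (k + 1)] : Fin 2 → ℝ) i)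
    (H1 := fun i v k => ad ((a v 0 / a v 1) ^ (k + 1)) i)
    (H2 := fun i v k => ad ((b v 0 / b v 1) ^ (k + 1)) i)
    (fun i j v k => hF (h.unitary v).1 k i j) (fun i j v k => hF (h.unitary v).2 k i j)
    (fun i j s hs => h.conv i j s hs)
    (fun i j => by
      obtain ⟨Λ, g1, g2, g3⟩ := h.order i j
      refine ⟨Λ, g1, ?_, g3⟩
      rw [g2]
      split_ifs <;> simp)
    c (B := {v | X ≤ |c 0 0 + c 1 0 * trAd (a v) + c 0 1 * trAd (b v) +
      c 1 1 * (trAd (a v) * trAd (b v))|}) hX (by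
      intro v hv
      simp only [Fin.sum_univ_two, zero_add, pow_one, Matrix.cons_val_zero, Matrix.cons_val_one,
        Matrix.cons_val_fin_one, mul_one, one_mul]
      refine le_trans hv (le_of_eq ?_)
      congr 1
      ring)
  have h2 : ∑ i, ∑ j, c i j ^ 2 = c 0 0 ^ 2 + c 1 0 ^ 2 + c 0 1 ^ 2 + c 1 1 ^ 2 := by
    simp only [Fin.sum_univ_two]
    ring
  rw [h2] at h1
  exact h1

theorem lam_facts {z : ℂ} (h : z ≠ 0 ∧ (conj z = z ∨ conj z = z⁻¹)) (k : ℕ) :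
    z ^ k ≠ 0 ∧ ((lam (z ^ k) : ℝ) : ℂ) = z ^ k + (z ^ k)⁻¹ := by
  obtain ⟨h0, h1⟩ := h
  refine ⟨pow_ne_zero _ h0, Complex.conj_eq_iff_re.1 ?_⟩
  rcases h1 with h1 | h1
  · rw [map_add, map_inv₀, map_pow, h1]
  · rw [map_add, map_inv₀, map_pow, h1, inv_pow, inv_inv, add_comm]

theorem trivial_case {a b : Places S → ℂ} (h : PairTrivial a b) (c : Fin 3 → Fin 3 → ℝ) {X : ℝ} (hX : 0 < X) :
    UpperDensityLe {v | X ≤ |∑ i, ∑ j, c i j * (U (lam (a v)) i * U (lam (b v)) j)|}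
      ((∑ i, ∑ j, c i j ^ 2) / X ^ 2) := by
  have hF : ∀ {d : ℂ} (_ : d ≠ 0 ∧ (conj d = d ∨ conj d = d⁻¹)) (k : ℕ) (i j : Fin 3),
      ((U (lam (d ^ (k + 1))) i : ℝ) : ℂ) * ((U (lam (d ^ (k + 1))) j : ℝ) : ℂ) =
        ∑ e, (((![![![1, 0, 0, 0, 0], ![0, 1, 0, 0, 0], ![0, 0, 1, 0, 0]],
            ![![0, 1, 0, 0, 0], ![1, 0, 1, 0, 0], ![0, 1, 0, 1, 0]],
            ![![0, 0, 1, 0, 0], ![0, 1, 0, 1, 0], ![1, 0, 1, 0, 1]]] : Fin 3 → Fin 3 → Fin 5 → ℝ) i j e : ℝ) : ℂ) *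
          sym (d ^ (k + 1)) e := by
    intro d hd k i j
    obtain ⟨f1, f2⟩ := lam_facts hd (k + 1)
    set t := d ^ (k + 1) with ht
    rw [Fin.sum_univ_five]
    have f3 : (((lam t) ^ 2 - 1 : ℝ) : ℂ) = t ^ 2 + 1 + t⁻¹ ^ 2 := by
      push_cast
      rw [f2]
      field_simp
      ring
    have u0 : U (lam t) 0 = 1 := rfl
    have u1 : U (lam t) 1 = lam t := rfl
    have u2 : U (lam t) 2 = (lam t) ^ 2 - 1 := rfl
    have s0 : sym t 0 = 1 := rfl
    have s1 : sym t 1 = t + t⁻¹ := rfl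
    have s2 : sym t 2 = t ^ 2 + 1 + t⁻¹ ^ 2 := rfl
    have s3 : sym t 3 = t ^ 3 + t + t⁻¹ + t⁻¹ ^ 3 := rfl
    have s4 : sym t 4 = t ^ 4 + t ^ 2 + 1 + t⁻¹ ^ 2 + t⁻¹ ^ 4 := rfl
    have three : ∀ x : Fin 3, x = 0 ∨ x = 1 ∨ x = 2 := by decide
    rcases three i with rfl | rfl | rfl <;> rcases three j with rfl | rfl | rfl <;>
      simp only [u0, u1, u2, s0, s1, s2, s3, s4, f2, f3, Complex.ofReal_one, Matrix.cons_val_zero,
        Matrix.cons_val_one, Matrix.cons_val, Complex.ofReal_zero, zero_mul, one_mul, mul_one, add_zero, zero_add] <;>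
      first | rfl | (field_simp; ring)
  have h1 := Pool.Agent.X289.Lin.pair (P := Places S) (q := fun v => q v.1) one_lt_q
    (N := ![![![1, 0, 0, 0, 0], ![0, 1, 0, 0, 0], ![0, 0, 1, 0, 0]],
            ![![0, 1, 0, 0, 0], ![1, 0, 1, 0, 0], ![0, 1, 0, 1, 0]],
            ![![0, 0, 1, 0, 0], ![0, 1, 0, 1, 0], ![1, 0, 1, 0, 1]]]) (j0 := 0)
    (by intro a c; fin_cases a <;> fin_cases c <;> simp)
    (F1 := fun i v k => U (lam (a v ^ (k + 1))) i)
    (F2 := fun i v k => U (lam (b v ^ (k + 1))) i)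
    (H1 := fun i v k => sym (a v ^ (k + 1)) i)
    (H2 := fun i v k => sym (b v ^ (k + 1)) i)
    (fun i j v k => hF (h.unitary v).1 k i j) (fun i j v k => hF (h.unitary v).2 k i j)
    (fun i j s hs => h.conv i j s hs)
    (fun i j => by
      obtain ⟨Λ, g1, g2, g3⟩ := h.order i j
      refine ⟨Λ, g1, ?_, g3⟩
      rw [g2]
      split_ifs <;> simp)
    c (B := {v | X ≤ |∑ i, ∑ j, c i j * (U (lam (a v)) i * U (lam (b v)) j)|}) hX (by
      intro v hv
      simp only [zero_add, pow_one]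
      exact hv)
  exact h1

/-- **Two representations of `GL(2)`.** -/
theorem result :
    (∀ a b : Places S → Fin 2 → ℂ, Pair a b →
      UpperDensityLe {v | ¬ Tempered (a v) ∧ ¬ Tempered (b v)} (1 / 100) ∧
      (∀ T₁ T₂ : ℝ, 1 ≤ T₁ → 1 ≤ T₂ → UpperDensityLe {v | T₁ ≤ ‖a v 0 + a v 1‖ ∧ T₂ ≤ ‖b v 0 + b v 1‖}
        (1 / ((1 + (T₁ ^ 2 - 1) ^ 2) * (1 + (T₂ ^ 2 - 1) ^ 2)))) ∧
      ∀ (c : Fin 2 → Fin 2 → ℝ) (X : ℝ), 0 < X → UpperDensityLe {v | X ≤
        |c 0 0 + c 1 0 * (‖a v 0 + a v 1‖ ^ 2 - 1) + c 0 1 * (‖b v 0 + b v 1‖ ^ 2 - 1) +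
          c 1 1 * ((‖a v 0 + a v 1‖ ^ 2 - 1) * (‖b v 0 + b v 1‖ ^ 2 - 1))|}
        ((c 0 0 ^ 2 + c 1 0 ^ 2 + c 0 1 ^ 2 + c 1 1 ^ 2) / X ^ 2)) ∧
    ∀ a b : Places S → ℂ, PairTrivial a b →
      (∀ δ₁ δ₂ : ℝ, |δ₁| = 1 → |δ₂| = 1 →
        UpperDensityLe {v | 2 < δ₁ * lam (a v) ∧ 2 < δ₂ * lam (b v)} (1 / 196)) ∧
      (∀ δ : ℝ, |δ| = 1 →
        UpperDensityLe {v | 2 < |lam (a v)| ∧ 2 < |lam (b v)| ∧ 0 < δ * (lam (a v) * lam (b v))} (1 / 116)) ∧
      ∀ (c : Fin 3 → Fin 3 → ℝ) (X : ℝ), 0 < X →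
        UpperDensityLe {v | X ≤ |∑ i, ∑ j, c i j * (U (lam (a v)) i * U (lam (b v)) j)|}
          ((∑ i, ∑ j, c i j ^ 2) / X ^ 2) := by
  refine ⟨fun a b h => ?_, fun a b h => ?_⟩
  · refine ⟨?_, fun T₁ T₂ hT₁ hT₂ => ?_, fun c X hX => ?_⟩
    · have h1 := general h (![![1, 3], ![3, 9]]) (X := 100) (by norm_num)
      have e : ((![![1, 3], ![3, 9]] : Fin 2 → Fin 2 → ℝ) 0 0 ^ 2 + (![![1, 3], ![3, 9]] : Fin 2 → Fin 2 → ℝ) 1 0 ^ 2 +
          (![![1, 3], ![3, 9]] : Fin 2 → Fin 2 → ℝ) 0 1 ^ 2 + (![![1, 3], ![3, 9]] : Fin 2 → Fin 2 → ℝ) 1 1 ^ 2) /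
          (100 : ℝ) ^ 2 = 1 / 100 := by
        simp
        norm_num
      rw [e] at h1
      refine ud_mono (fun v hv => ?_) h1
      obtain ⟨h2, h3⟩ := hv
      have h4 := (facts (h.unitary v).1).2.2.2 h2
      have h5 := (facts (h.unitary v).2).2.2.2 h3
      show (100 : ℝ) ≤ |_|
      simp only [Matrix.cons_val_zero, Matrix.cons_val_one, Matrix.cons_val_fin_one]
      refine le_trans ?_ (le_abs_self _)
      nlinarith
    · set A := T₁ ^ 2 - 1 with hA
      set B := T₂ ^ 2 - 1 with hB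
      have hA0 : 0 ≤ A := by nlinarith
      have hB0 : 0 ≤ B := by nlinarith
      have h1 := general h (![![1, B], ![A, A * B]]) (X := (1 + A ^ 2) * (1 + B ^ 2)) (by positivity)
      have e : ((![![1, B], ![A, A * B]] : Fin 2 → Fin 2 → ℝ) 0 0 ^ 2 +
          (![![1, B], ![A, A * B]] : Fin 2 → Fin 2 → ℝ) 1 0 ^ 2 +
          (![![1, B], ![A, A * B]] : Fin 2 → Fin 2 → ℝ) 0 1 ^ 2 +
          (![![1, B], ![A, A * B]] : Fin 2 → Fin 2 → ℝ) 1 1 ^ 2) /
          ((1 + A ^ 2) * (1 + B ^ 2)) ^ 2 = 1 / ((1 + A ^ 2) * (1 + B ^ 2)) := by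
        simp only [Matrix.cons_val_zero, Matrix.cons_val_one, Matrix.cons_val_fin_one]
        rw [div_eq_div_iff (by positivity) (by positivity)]
        ring
      rw [e] at h1
      refine ud_mono (fun v hv => ?_) h1
      obtain ⟨h2, h3⟩ := hv
      have h4 := (facts (h.unitary v).1).2.2.1
      have h5 := (facts (h.unitary v).2).2.2.1
      have h6 : A ≤ trAd (a v) := by
        rw [h4, hA]
        have := pow_le_pow_left₀ (by linarith) h2 2
        linarith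
      have h7 : B ≤ trAd (b v) := by
        rw [h5, hB]
        have := pow_le_pow_left₀ (by linarith) h3 2
        linarith
      show (1 + A ^ 2) * (1 + B ^ 2) ≤ |_|
      simp only [Matrix.cons_val_zero, Matrix.cons_val_one, Matrix.cons_val_fin_one]
      refine le_trans ?_ (le_abs_self _)
      have h8 : A * A ≤ A * trAd (a v) := mul_le_mul_of_nonneg_left h6 hA0
      have h9 : B * B ≤ B * trAd (b v) := mul_le_mul_of_nonneg_left h7 hB0
      have h10 : (1 + A * A) * (1 + B * B) ≤ (1 + A * trAd (a v)) * (1 + B * trAd (b v)) := by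
        refine mul_le_mul (by linarith) (by linarith) (by positivity) ?_
        have : 0 ≤ A * A := mul_nonneg hA0 hA0
        linarith
      nlinarith
    · refine ud_mono (fun v hv => ?_) (general h c hX)
      show X ≤ |_|
      rw [(facts (h.unitary v).1).2.2.1, (facts (h.unitary v).2).2.2.1]
      exact hv
  · refine ⟨fun δ₁ δ₂ h₁ h₂ => ?_, fun δ hδ => ?_, fun c X hX => trivial_case h c hX⟩
    · have h1 := trivial_case h (![![1, 2 * δ₂, 3], ![2 * δ₁, 4 * (δ₁ * δ₂), 6 * δ₁], ![3, 6 * δ₂, 9]]) (X := 196)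
        (by norm_num)
      have s1 : δ₁ ^ 2 = 1 := by rw [← sq_abs, h₁, one_pow]
      have s2 : δ₂ ^ 2 = 1 := by rw [← sq_abs, h₂, one_pow]
      have e : (∑ i, ∑ j, (![![1, 2 * δ₂, 3], ![2 * δ₁, 4 * (δ₁ * δ₂), 6 * δ₁], ![3, 6 * δ₂, 9]] :
          Fin 3 → Fin 3 → ℝ) i j ^ 2) / (196 : ℝ) ^ 2 = 1 / 196 := by
        simp only [Fin.sum_univ_three, Matrix.cons_val_zero, Matrix.cons_val_one, Matrix.cons_val]
        have : (1 : ℝ) ^ 2 + (2 * δ₂) ^ 2 + 3 ^ 2 + ((2 * δ₁) ^ 2 + (4 * (δ₁ * δ₂)) ^ 2 + (6 * δ₁) ^ 2) +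
            (3 ^ 2 + (6 * δ₂) ^ 2 + 9 ^ 2) = 196 := by
          linear_combination (4 + 16 * δ₂ ^ 2 + 36) * s1 + (4 + 16 + 36) * s2
        rw [this]
        norm_num
      rw [e] at h1
      refine ud_mono (fun v hv => ?_) h1
      obtain ⟨h2, h3⟩ := hv
      show (196 : ℝ) ≤ |_|
      set x := lam (a v) with hx
      set y := lam (b v) with hy
      have e1 : (∑ i, ∑ j, (![![1, 2 * δ₂, 3], ![2 * δ₁, 4 * (δ₁ * δ₂), 6 * δ₁], ![3, 6 * δ₂, 9]] :
          Fin 3 → Fin 3 → ℝ) i j * (U x i * U y j)) =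
          (1 + 2 * (δ₁ * x) + 3 * ((δ₁ * x) ^ 2 - 1)) * (1 + 2 * (δ₂ * y) + 3 * ((δ₂ * y) ^ 2 - 1)) := by
        simp only [Fin.sum_univ_three, U, Matrix.cons_val_zero, Matrix.cons_val_one, Matrix.cons_val]
        have t1 : (δ₁ * x) ^ 2 = x ^ 2 := by rw [mul_pow, s1, one_mul]
        have t2 : (δ₂ * y) ^ 2 = y ^ 2 := by rw [mul_pow, s2, one_mul]
        rw [t1, t2]
        ring
      rw [e1]
      refine le_trans ?_ (le_abs_self _)
      have g1 : 14 ≤ 1 + 2 * (δ₁ * x) + 3 * ((δ₁ * x) ^ 2 - 1) := by nlinarith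
      have g2 : 14 ≤ 1 + 2 * (δ₂ * y) + 3 * ((δ₂ * y) ^ 2 - 1) := by nlinarith
      nlinarith
    · have h1 := trivial_case h (![![1, 0, 3], ![0, 4 * δ, 0], ![3, 0, 9]]) (X := 116) (by norm_num)
      have s1 : δ ^ 2 = 1 := by rw [← sq_abs, hδ, one_pow]
      have e : (∑ i, ∑ j, (![![1, 0, 3], ![0, 4 * δ, 0], ![3, 0, 9]] :
          Fin 3 → Fin 3 → ℝ) i j ^ 2) / (116 : ℝ) ^ 2 = 1 / 116 := by
        simp only [Fin.sum_univ_three, Matrix.cons_val_zero, Matrix.cons_val_one, Matrix.cons_val]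
        have : (1 : ℝ) ^ 2 + 0 ^ 2 + 3 ^ 2 + (0 ^ 2 + (4 * δ) ^ 2 + 0 ^ 2) + (3 ^ 2 + 0 ^ 2 + 9 ^ 2) = 116 := by
          linear_combination 16 * s1
        rw [this]
        norm_num
      rw [e] at h1
      refine ud_mono (fun v hv => ?_) h1
      obtain ⟨h2, h3, h4⟩ := hv
      show (116 : ℝ) ≤ |_|
      set x := lam (a v) with hx
      set y := lam (b v) with hy
      have e1 : (∑ i, ∑ j, (![![1, 0, 3], ![0, 4 * δ, 0], ![3, 0, 9]] :
          Fin 3 → Fin 3 → ℝ) i j * (U x i * U y j)) =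
          (1 + 3 * (x ^ 2 - 1)) * (1 + 3 * (y ^ 2 - 1)) + 4 * (δ * (x * y)) := by
        simp only [Fin.sum_univ_three, U, Matrix.cons_val_zero, Matrix.cons_val_one, Matrix.cons_val]
        ring
      rw [e1]
      refine le_trans ?_ (le_abs_self _)
      have x2 : 4 < x ^ 2 := by
        rw [← sq_abs]
        nlinarith
      have y2 : 4 < y ^ 2 := by
        rw [← sq_abs]
        nlinarith
      have g1 : 100 ≤ (1 + 3 * (x ^ 2 - 1)) * (1 + 3 * (y ^ 2 - 1)) := by nlinarith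
      have g2 : 4 ≤ δ * (x * y) := by
        have g3 : |δ * (x * y)| = |x| * |y| := by rw [abs_mul, hδ, one_mul, abs_mul]
        rw [abs_of_pos h4] at g3
        rw [g3]
        nlinarith
      linarith

end

end Pool.Agent.Results.MP_8410ab_nt.PairsOfForms
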